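import Mathlib

set_option autoImplicit false

namespace Pool.Agent.H665S

open scoped commutatorElement

/-- five indices -/
abbrev Idx := Fin 5

/-- finite presentability, in the form used by the target statement -/
def FP (G : Type) [Group G] : Prop :=
  ∃ (n : ℕ) (f : FreeGroup (Fin n) →* G), Function.Surjective f ∧
    ∃ S : Finset (FreeGroup (Fin n)),
      Subgroup.normalClosure (S : Set (FreeGroup (Fin n))) = f.ker

/-- a family of elements satisfying the Steinberg relations over the ring `R` -/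
structure IsSt {R G : Type} [Ring R] [Group G] (x : Idx → Idx → R → G) : Prop where
  diag : ∀ i r, x i i r = 1
  add : ∀ i j r s, x i j (r + s) = x i j r * x i j s
  comm : ∀ i j k l r s, i ≠ j → k ≠ l → j ≠ k → i ≠ l → Commute (x i j r) (x k l s)
  mul : ∀ i j k r s, i ≠ j → j ≠ k → i ≠ k → ⁅x i j r, x j k s⁆ = x i k (r * s)

/-- the Steinberg relators -/
def stRels (R : Type) [Ring R] : Set (FreeGroup (Idx × Idx × R)) :=
  {w | (∃ (i : Idx) (r : R), w = FreeGroup.of (i, i, r)) ∨
    (∃ (i j : Idx) (r s : R), w = FreeGroup.of (i, j, r + s) *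
      (FreeGroup.of (i, j, r) * FreeGroup.of (i, j, s))⁻¹) ∨
    (∃ (i j k l : Idx) (r s : R), i ≠ j ∧ k ≠ l ∧ j ≠ k ∧ i ≠ l ∧
      w = ⁅FreeGroup.of (i, j, r), FreeGroup.of (k, l, s)⁆) ∨
    (∃ (i j k : Idx) (r s : R), i ≠ j ∧ j ≠ k ∧ i ≠ k ∧
      w = ⁅FreeGroup.of (i, j, r), FreeGroup.of (j, k, s)⁆ *
        (FreeGroup.of (i, k, r * s))⁻¹)}

/-- the Steinberg group of rank five over `R` -/
def St (R : Type) [Ring R] : Type := PresentedGroup (stRels R)

instance (R : Type) [Ring R] : Group (St R) :=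
  inferInstanceAs (Group (PresentedGroup (stRels R)))

namespace St

variable {R : Type} [Ring R]

/-- the elementary generators -/
def x (i j : Idx) (r : R) : St R := PresentedGroup.of (rels := stRels R) (i, j, r)

theorem isSt : IsSt (x (R := R)) where
  diag i r := by
    have h : FreeGroup.of (i, i, r) ∈ stRels R := Or.inl ⟨i, r, rfl⟩
    exact PresentedGroup.one_of_mem h
  add i j r s := by
    have h : FreeGroup.of (i, j, r + s) *
      (FreeGroup.of (i, j, r) * FreeGroup.of (i, j, s))⁻¹ ∈ stRels R :=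
      Or.inr (Or.inl ⟨i, j, r, s, rfl⟩)
    have h2 := PresentedGroup.one_of_mem h
    rw [map_mul, map_inv, mul_inv_eq_one, map_mul] at h2
    exact h2
  comm i j k l r s h1 h2 h3 h4 := by
    have h : ⁅FreeGroup.of (i, j, r), FreeGroup.of (k, l, s)⁆ ∈ stRels R :=
      Or.inr (Or.inr (Or.inl ⟨i, j, k, l, r, s, h1, h2, h3, h4, rfl⟩))
    have h2 := PresentedGroup.one_of_mem h
    rw [map_commutatorElement, commutatorElement_eq_one_iff_commute] at h2
    exact h2
  mul i j k r s h1 h2 h3 := by
    have h : ⁅FreeGroup.of (i, j, r), FreeGroup.of (j, k, s)⁆ *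
        (FreeGroup.of (i, k, r * s))⁻¹ ∈ stRels R :=
      Or.inr (Or.inr (Or.inr ⟨i, j, k, r, s, h1, h2, h3, rfl⟩))
    have h2 := PresentedGroup.one_of_mem h
    rw [map_mul, map_inv, mul_inv_eq_one, map_commutatorElement] at h2
    exact h2

/-- universal property -/
def lift {G : Type} [Group G] {y : Idx → Idx → R → G} (h : IsSt y) : St R →* G :=
  PresentedGroup.toGroup (rels := stRels R) (f := fun p => y p.1 p.2.1 p.2.2) (by
    rintro w (⟨i, r, rfl⟩ | ⟨i, j, r, s, rfl⟩ | ⟨i, j, k, l, r, s, h1, h2, h3, h4, rfl⟩ |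
      ⟨i, j, k, r, s, h1, h2, h3, rfl⟩)
    · simpa using h.diag i r
    · rw [map_mul, map_inv, mul_inv_eq_one, map_mul]
      simpa using h.add i j r s
    · rw [map_commutatorElement, commutatorElement_eq_one_iff_commute]
      simpa using h.comm i j k l r s h1 h2 h3 h4
    · rw [map_mul, map_inv, mul_inv_eq_one, map_commutatorElement]
      simpa using h.mul i j k r s h1 h2 h3)

theorem lift_x {G : Type} [Group G] {y : Idx → Idx → R → G} (h : IsSt y) (i j : Idx) (r : R) :
    lift h (x i j r) = y i j r :=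
  PresentedGroup.toGroup.of _

theorem hom_ext {G : Type} [Group G] {f g : St R →* G}
    (h : ∀ i j r, f (x i j r) = g (x i j r)) : f = g := by
  apply PresentedGroup.ext
  rintro ⟨i, j, r⟩
  exact h i j r

end St

end Pool.Agent.H665S
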