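import Pool.Agent.H665S.Defs

set_option autoImplicit false

namespace Pool.Agent.H665S

open scoped commutatorElement



theorem exists_ext {X G : Type} [Group G] (y : FreeMonoid X → G)
    (hc : ∀ u v, Commute (y u) (y v)) :
    ∃ φ : FreeAbelianGroup (FreeMonoid X) → G, (∀ r s, φ (r + s) = φ r * φ s) ∧
      (∀ w, φ (FreeAbelianGroup.of w) = y w) := by
  have hk : ∀ a ∈ Set.range y, ∀ b ∈ Set.range y, a * b = b * a := by
    rintro _ ⟨u, rfl⟩ _ ⟨v, rfl⟩
    exact hc u v
  letI : CommGroup (Subgroup.closure (Set.range y)) := Subgroup.closureCommGroupOfComm hk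
  let L : FreeAbelianGroup (FreeMonoid X) →+ Additive (Subgroup.closure (Set.range y)) :=
    FreeAbelianGroup.lift (fun w => Additive.ofMul ⟨y w, Subgroup.subset_closure ⟨w, rfl⟩⟩)
  refine ⟨fun r => ((L r).toMul : Subgroup.closure (Set.range y)), ?_, ?_⟩
  · intro r s
    show (((L (r + s)).toMul : Subgroup.closure (Set.range y)) : G) = _
    rw [map_add]
    rfl
  · intro w
    show (((L (FreeAbelianGroup.of w)).toMul : Subgroup.closure (Set.range y)) : G) = y w
    rw [FreeAbelianGroup.lift_apply_of]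
    rfl

section
variable {G : Type} [Group G]

theorem comm_mul_left {a a' b : G} (h : Commute a ⁅a', b⁆) :
    ⁅a * a', b⁆ = ⁅a', b⁆ * ⁅a, b⁆ := by
  have h1 : ⁅a * a', b⁆ = a * ⁅a', b⁆ * a⁻¹ * ⁅a, b⁆ := by
    simp only [commutatorElement_def]
    group
  rw [h1, h.eq]
  group

theorem comm_mul_right {a b b' : G} (h : Commute b ⁅a, b'⁆) :
    ⁅a, b * b'⁆ = ⁅a, b⁆ * ⁅a, b'⁆ := by
  have h1 : ⁅a, b * b'⁆ = ⁅a, b⁆ * (b * ⁅a, b'⁆ * b⁻¹) := by
    simp only [commutatorElement_def]
    group
  rw [h1, h.eq]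
  group

end

theorem exists_isSt_of_words {X G : Type} [Group G] (Y : Idx → Idx → List X → G)
    (hcomm : ∀ (u v : List X) (i j k l : Idx), i ≠ j → k ≠ l → j ≠ k → i ≠ l →
      Commute (Y i j u) (Y k l v))
    (hmul : ∀ (u v : List X) (i j k : Idx), i ≠ j → j ≠ k → i ≠ k →
      ⁅Y i j u, Y j k v⁆ = Y i k (u ++ v)) :
    ∃ x : Idx → Idx → FreeRing X → G, IsSt x ∧ (∀ i j, i ≠ j → x i j 1 = Y i j []) ∧
      (∀ i j a, i ≠ j → x i j (FreeRing.of a) = Y i j [a]) := by
  classical
  have hex : ∀ i j : Idx, ∃ φ : FreeAbelianGroup (FreeMonoid X) → G, i ≠ j →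
      ((∀ r s, φ (r + s) = φ r * φ s) ∧
        (∀ w : FreeMonoid X, φ (FreeAbelianGroup.of w) = Y i j (FreeMonoid.toList w))) := by
    intro i j
    by_cases hij : i = j
    · exact ⟨fun _ => 1, fun h => absurd hij h⟩
    · obtain ⟨φ, h1, h2⟩ := exists_ext (fun w : FreeMonoid X => Y i j (FreeMonoid.toList w))
        (fun u v => hcomm _ _ i j i j hij hij (Ne.symm hij) hij)
      exact ⟨φ, fun _ => ⟨h1, h2⟩⟩
  choose φ hφ using hex
  have hadd : ∀ i j, i ≠ j → ∀ r s, φ i j (r + s) = φ i j r * φ i j s := fun i j h => (hφ i j h).1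
  have hof : ∀ i j, i ≠ j → ∀ w : FreeMonoid X, φ i j (FreeAbelianGroup.of w) =
    Y i j (FreeMonoid.toList w) := fun i j h => (hφ i j h).2
  have hzero : ∀ i j, i ≠ j → φ i j 0 = 1 := by
    intro i j h
    have := hadd i j h 0 0
    rw [add_zero] at this
    exact (mul_eq_left.1 this.symm)
  have hneg : ∀ i j, i ≠ j → ∀ r, φ i j (-r) = (φ i j r)⁻¹ := by
    intro i j h r
    have := hadd i j h (-r) r
    rw [neg_add_cancel, hzero i j h] at this
    exact eq_inv_of_mul_eq_one_left this.symm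
  have hC : ∀ i j k l r s, i ≠ j → k ≠ l → j ≠ k → i ≠ l → Commute (φ i j r) (φ k l s) := by
    intro i j k l r s h1 h2 h3 h4
    induction r using FreeAbelianGroup.induction_on with
    | zero => rw [hzero i j h1]; exact Commute.one_left _
    | of u =>
      induction s using FreeAbelianGroup.induction_on with
      | zero => rw [hzero k l h2]; exact Commute.one_right _
      | of v =>
        rw [hof i j h1, hof k l h2]
        exact hcomm _ _ i j k l h1 h2 h3 h4
      | neg v hv => rw [hneg k l h2]; exact hv.inv_right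
      | add a b ha hb => rw [hadd k l h2]; exact ha.mul_right hb
    | neg u hu => rw [hneg i j h1]; exact hu.inv_left
    | add a b ha hb => rw [hadd i j h1]; exact ha.mul_left hb
  have hM1 : ∀ i j k (u : FreeMonoid X) s, i ≠ j → j ≠ k → i ≠ k →
      ⁅φ i j (FreeAbelianGroup.of u), φ j k s⁆ = φ i k (FreeAbelianGroup.of u * s) := by
    intro i j k u s h1 h2 h3
    have hadd2 : ∀ a b : FreeAbelianGroup (FreeMonoid X),
        ⁅φ i j (FreeAbelianGroup.of u), φ j k a⁆ = φ i k (FreeAbelianGroup.of u * a) →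
        ⁅φ i j (FreeAbelianGroup.of u), φ j k b⁆ = φ i k (FreeAbelianGroup.of u * b) →
        ⁅φ i j (FreeAbelianGroup.of u), φ j k (a + b)⁆ = φ i k (FreeAbelianGroup.of u * (a + b)) := by
      intro a b ha hb
      rw [hadd j k h2, comm_mul_right, ha, hb, mul_add, hadd i k h3]
      rw [hb]
      exact hC j k i k _ _ h2 h3 (Ne.symm h3) h2
    induction s using FreeAbelianGroup.induction_on with
    | zero => rw [hzero j k h2, mul_zero, hzero i k h3]; simp
    | of v =>
      rw [hof i j h1, hof j k h2, FreeAbelianGroup.of_mul_of, hof i k h3, hmul _ _ i j k h1 h2 h3]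
      rfl
    | neg v hv =>
      have h5 : ⁅φ i j (FreeAbelianGroup.of u), φ j k (-FreeAbelianGroup.of v)⁆ *
          ⁅φ i j (FreeAbelianGroup.of u), φ j k (FreeAbelianGroup.of v)⁆ = 1 := by
        have h6 : Commute (φ j k (-FreeAbelianGroup.of v))
            ⁅φ i j (FreeAbelianGroup.of u), φ j k (FreeAbelianGroup.of v)⁆ := by
          rw [hv]
          exact hC j k i k _ _ h2 h3 (Ne.symm h3) h2
        rw [← comm_mul_right h6, ← hadd j k h2, neg_add_cancel, hzero j k h2]
        simp
      rw [eq_inv_of_mul_eq_one_left h5, hv, mul_neg, hneg i k h3]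
    | add a b ha hb => exact hadd2 a b ha hb
  have hM : ∀ i j k r s, i ≠ j → j ≠ k → i ≠ k → ⁅φ i j r, φ j k s⁆ = φ i k (r * s) := by
    intro i j k r s h1 h2 h3
    induction r using FreeAbelianGroup.induction_on with
    | zero => rw [hzero i j h1, zero_mul, hzero i k h3]; simp
    | of u => exact hM1 i j k u s h1 h2 h3
    | neg u hu =>
      have h5 : ⁅φ i j (FreeAbelianGroup.of u), φ j k s⁆ *
          ⁅φ i j (-FreeAbelianGroup.of u), φ j k s⁆ = 1 := by
        have h6 : Commute (φ i j (-FreeAbelianGroup.of u))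
            ⁅φ i j (FreeAbelianGroup.of u), φ j k s⁆ := by
          rw [hu]
          exact hC i j i k _ _ h1 h3 (Ne.symm h1) h3
        rw [← comm_mul_left h6, ← hadd i j h1, neg_add_cancel, hzero i j h1]
        simp
      rw [eq_inv_of_mul_eq_one_right h5, hu, neg_mul, hneg i k h3]
    | add a b ha hb =>
      have h6 : Commute (φ i j b) ⁅φ i j a, φ j k s⁆ := by
        rw [ha]
        exact hC i j i k _ _ h1 h3 (Ne.symm h1) h3
      have h7 : φ i j (a + b) = φ i j b * φ i j a := by rw [add_comm, hadd i j h1]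
      rw [h7, comm_mul_left h6, ha, hb, add_mul, hadd i k h3]
  refine ⟨fun i j r => if i = j then 1 else φ i j r, ⟨?_, ?_, ?_, ?_⟩, ?_, ?_⟩
  · intro i r
    simp
  · intro i j r s
    by_cases h : i = j
    · simp [h]
    · simp only [if_neg h]
      exact hadd i j h r s
  · intro i j k l r s h1 h2 h3 h4
    simp only [if_neg h1, if_neg h2]
    exact hC i j k l r s h1 h2 h3 h4
  · intro i j k r s h1 h2 h3
    simp only [if_neg h1, if_neg h2, if_neg h3]
    exact hM i j k r s h1 h2 h3
  · intro i j h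
    simp only [if_neg h]
    exact hof i j h 1
  · intro i j a h
    simp only [if_neg h]
    exact hof i j h (FreeMonoid.of a)

end Pool.Agent.H665S
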