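import Pool.Agent.H665S.Defs

set_option autoImplicit false

namespace Pool.Agent.H665S

open scoped commutatorElement

theorem FP.of_surjective {G H : Type} [Group G] [Group H] (f : G →* H)
    (hf : Function.Surjective f) (S : Set G) (hS : S.Finite)
    (hker : Subgroup.normalClosure S = f.ker) (h : FP G) : FP H := by
  classical
  obtain ⟨n, φ, hφ, T, hT⟩ := h
  let S' : Set (FreeGroup (Fin n)) := Function.surjInv hφ '' S
  have hS' : S'.Finite := hS.image _
  have hφS' : φ '' S' = S := by
    rw [Set.image_image]
    simp [Function.surjInv_eq hφ]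
  refine ⟨n, f.comp φ, hf.comp hφ, T ∪ hS'.toFinset, ?_⟩
  have hco : ((T ∪ hS'.toFinset : Finset (FreeGroup (Fin n))) : Set (FreeGroup (Fin n))) =
      (T : Set (FreeGroup (Fin n))) ∪ S' := by simp
  rw [hco]
  apply le_antisymm
  · apply Subgroup.normalClosure_le_normal
    rintro w (hw | hw)
    · have h1 : w ∈ φ.ker := by rw [← hT]; exact Subgroup.subset_normalClosure hw
      change f (φ w) = 1
      rw [MonoidHom.mem_ker.mp h1, map_one]
    · have h1 : φ w ∈ f.ker := by
        rw [← hker, ← hφS']
        exact Subgroup.subset_normalClosure ⟨w, hw, rfl⟩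
      exact h1
  · intro w hw
    have h1 : φ w ∈ Subgroup.normalClosure S := by rw [hker]; exact hw
    rw [← hφS', ← Subgroup.map_normalClosure S' φ hφ] at h1
    obtain ⟨w', hw', he⟩ := h1
    have h2 : w * w'⁻¹ ∈ φ.ker := by
      rw [MonoidHom.mem_ker, map_mul, map_inv, he, mul_inv_cancel]
    rw [← hT] at h2
    have h3 : w * w'⁻¹ ∈ Subgroup.normalClosure ((T : Set (FreeGroup (Fin n))) ∪ S') :=
      Subgroup.normalClosure_mono Set.subset_union_left h2
    have h4 : w' ∈ Subgroup.normalClosure ((T : Set (FreeGroup (Fin n))) ∪ S') :=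
      Subgroup.normalClosure_mono Set.subset_union_right hw'
    have h5 := Subgroup.mul_mem _ h3 h4
    rwa [inv_mul_cancel_right] at h5

theorem FP.of_presented {α : Type} [Fintype α] (rels : Set (FreeGroup α)) (hfin : rels.Finite) :
    FP (PresentedGroup rels) := by
  have hfree : FP (FreeGroup α) := by
    refine ⟨Fintype.card α, (FreeGroup.freeGroupCongr (Fintype.equivFin α).symm).toMonoidHom,
      (FreeGroup.freeGroupCongr (Fintype.equivFin α).symm).surjective, ∅, ?_⟩
    rw [Finset.coe_empty, Subgroup.normalClosure_empty]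
    symm
    rw [MonoidHom.ker_eq_bot_iff]
    exact (FreeGroup.freeGroupCongr (Fintype.equivFin α).symm).injective
  refine FP.of_surjective (PresentedGroup.mk rels) (QuotientGroup.mk'_surjective _) rels hfin ?_ hfree
  exact (QuotientGroup.ker_mk' _).symm

end Pool.Agent.H665S
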