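import Pool.Agent.H665S.Prod

set_option autoImplicit false

namespace Pool.Agent.H665S

open scoped commutatorElement


/-- functoriality -/
def St.map {F R : Type} [Ring F] [Ring R] (p : F →+* R) : St F →* St R :=
  St.lift (y := fun i j r => St.x i j (p r))
    { diag := fun i r => St.isSt.diag i (p r)
      add := fun i j r s => by rw [map_add]; exact St.isSt.add i j _ _
      comm := fun i j k l r s h1 h2 h3 h4 => St.isSt.comm i j k l _ _ h1 h2 h3 h4
      mul := fun i j k r s h1 h2 h3 => by rw [map_mul]; exact St.isSt.mul i j k _ _ h1 h2 h3 }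

theorem St.map_x {F R : Type} [Ring F] [Ring R] (p : F →+* R) (i j : Idx) (r : F) :
    St.map p (St.x i j r) = St.x i j (p r) := St.lift_x _ i j r

theorem IsSt.neg {R G : Type} [Ring R] [Group G] {z : Idx → Idx → R → G} (h : IsSt z) (i j : Idx)
    (r : R) : z i j (-r) = (z i j r)⁻¹ := by
  rw [eq_inv_iff_mul_eq_one, ← h.add, neg_add_cancel, h.zero]

theorem third_idx : ∀ i j : Idx, ∃ k, k ≠ i ∧ k ≠ j := by decide

theorem IsSt.map_hom {R G H : Type} [Ring R] [Group G] [Group H] {z : Idx → Idx → R → G}
    (h : IsSt z) (q : G →* H) : IsSt (fun i j r => q (z i j r)) where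
  diag i r := by rw [h.diag, map_one]
  add i j r s := by rw [h.add, map_mul]
  comm i j k l r s h1 h2 h3 h4 := (h.comm i j k l r s h1 h2 h3 h4).map q
  mul i j k r s h1 h2 h3 := by
    rw [← map_commutatorElement, h.mul i j k r s h1 h2 h3]

/-- the ideal of elements with trivial image -/
def IsSt.ideal {F G : Type} [Ring F] [Group G] {z : Idx → Idx → F → G} (h : IsSt z) :
    TwoSidedIdeal F :=
  TwoSidedIdeal.mk' {f | ∀ i j, z i j f = 1}
    (fun i j => h.zero i j)
    (fun {a b} ha hb i j => by rw [h.add, ha i j, hb i j, mul_one])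
    (fun {a} ha i j => by rw [h.neg, ha i j, inv_one])
    (fun {r f} hf i j => by
      by_cases hij : i = j
      · subst hij; exact h.diag _ _
      · obtain ⟨k, hki, hkj⟩ := third_idx i j
        rw [← h.mul i k j r f (Ne.symm hki) hkj hij, hf k j, commutatorElement_one_right])
    (fun {f r} hf i j => by
      by_cases hij : i = j
      · subst hij; exact h.diag _ _
      · obtain ⟨k, hki, hkj⟩ := third_idx i j
        rw [← h.mul i k j f r (Ne.symm hki) hkj hij, hf i k, commutatorElement_one_left])

theorem St.ker_map {F R : Type} [Ring F] [Ring R] (p : F →+* R) (hp : Function.Surjective p)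
    (T : Set F) (hT : ∀ f : F, p f = 0 ↔ f ∈ TwoSidedIdeal.span T) :
    Subgroup.normalClosure {w : St F | ∃ i j : Idx, ∃ t ∈ T, w = St.x i j t} = (St.map p).ker := by
  apply le_antisymm
  · apply Subgroup.normalClosure_le_normal
    rintro _ ⟨i, j, t, ht, rfl⟩
    rw [SetLike.mem_coe, MonoidHom.mem_ker, St.map_x, (hT t).mpr (TwoSidedIdeal.subset_span ht)]
    exact St.isSt.zero i j
  · set N := Subgroup.normalClosure {w : St F | ∃ i j : Idx, ∃ t ∈ T, w = St.x i j t} with hN
    have hz : IsSt (fun i j f => QuotientGroup.mk' N (St.x (R := F) i j f)) :=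
      St.isSt.map_hom (QuotientGroup.mk' N)
    have hTI : TwoSidedIdeal.span T ≤ hz.ideal := by
      rw [TwoSidedIdeal.span_le]
      intro t ht
      show t ∈ hz.ideal
      unfold IsSt.ideal
      rw [TwoSidedIdeal.mem_mk']
      intro i j
      show QuotientGroup.mk' N (St.x i j t) = 1
      rw [QuotientGroup.mk'_apply, QuotientGroup.eq_one_iff]
      exact Subgroup.subset_normalClosure ⟨i, j, t, ht, rfl⟩
    have hker : ∀ f : F, p f = 0 → ∀ i j, QuotientGroup.mk' N (St.x i j f) = 1 := by
      intro f hf i j
      have h1 := hTI ((hT f).mp hf)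
      unfold IsSt.ideal at h1
      rw [TwoSidedIdeal.mem_mk'] at h1
      exact h1 i j
    have hclaim : ∀ f f' : F, p f = p f' → ∀ i j,
        QuotientGroup.mk' N (St.x i j f) = QuotientGroup.mk' N (St.x i j f') := by
      intro f f' hff i j
      have h1 : f = f' + (f - f') := by abel
      have h2 : QuotientGroup.mk' N (St.x i j (f' + (f - f'))) =
          QuotientGroup.mk' N (St.x i j f') * QuotientGroup.mk' N (St.x i j (f - f')) :=
        hz.add i j f' (f - f')
      rw [hker (f - f') (by rw [map_sub, hff, sub_self]) i j, mul_one, ← h1] at h2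
      exact h2
    have hsi : ∀ r, p (Function.surjInv hp r) = r := Function.surjInv_eq hp
    have hy : IsSt (fun i j r => QuotientGroup.mk' N (St.x i j (Function.surjInv hp r))) :=
      { diag := fun i r => hz.diag i _
        add := fun i j r s => by
          rw [hclaim (Function.surjInv hp (r + s)) (Function.surjInv hp r + Function.surjInv hp s)
            (by rw [map_add, hsi, hsi, hsi])]
          exact hz.add i j _ _
        comm := fun i j k l r s h1 h2 h3 h4 => hz.comm i j k l _ _ h1 h2 h3 h4
        mul := fun i j k r s h1 h2 h3 => by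
          rw [hclaim (Function.surjInv hp (r * s)) (Function.surjInv hp r * Function.surjInv hp s)
            (by rw [map_mul, hsi, hsi, hsi])]
          exact hz.mul i j k _ _ h1 h2 h3 }
    have hcomp : (St.lift hy).comp (St.map p) = QuotientGroup.mk' N := by
      apply St.hom_ext
      intro i j f
      rw [MonoidHom.comp_apply, St.map_x, St.lift_x]
      exact hclaim _ _ (hsi (p f)) i j
    intro w hw
    rw [MonoidHom.mem_ker] at hw
    have h1 : QuotientGroup.mk' N w = 1 := by
      rw [← hcomp, MonoidHom.comp_apply, hw, map_one]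
    rw [QuotientGroup.mk'_apply, QuotientGroup.eq_one_iff] at h1
    exact h1

theorem St.map_surjective {F R : Type} [Ring F] [Ring R] (p : F →+* R)
    (hp : Function.Surjective p) : Function.Surjective (St.map p) := by
  rw [← MonoidHom.range_eq_top, eq_top_iff]
  have h0 : Subgroup.closure (Set.range (fun q : Idx × Idx × R =>
      (St.x q.1 q.2.1 q.2.2 : St R))) = (⊤ : Subgroup (St R)) :=
    PresentedGroup.closure_range_of (stRels R)
  have h1 : Subgroup.closure (Set.range (fun q : Idx × Idx × R =>
      (St.x q.1 q.2.1 q.2.2 : St R))) ≤ ((St.map p).range : Subgroup (St R)) := by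
    rw [Subgroup.closure_le]
    rintro _ ⟨⟨i, j, r⟩, rfl⟩
    obtain ⟨f, rfl⟩ := hp r
    exact ⟨St.x i j f, St.map_x p i j f⟩
  intro w _
  apply h1
  rw [h0]
  trivial

end Pool.Agent.H665S
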