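import Pool.Agent.H665S.Ring

set_option autoImplicit false

namespace Pool.Agent.H665S

/-- basis set -/
abbrev Om := ℤ → ℕ

/-- the operator of a map that may be undefined -/
noncomputable def op (f : Om → Option Om) : Module.End ℤ (Om →₀ ℤ) :=
  Finsupp.lsum ℤ (fun n => (match f n with
    | none => 0
    | some m => Finsupp.lsingle m : ℤ →ₗ[ℤ] (Om →₀ ℤ)))

theorem op_single (f : Om → Option Om) (n : Om) (c : ℤ) :
    op f (Finsupp.single n c) = (match f n with
      | none => 0
      | some m => Finsupp.single m c) := by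
  unfold op
  rw [Finsupp.lsum_single]
  cases f n <;> rfl

theorem op_ext {F G : Module.End ℤ (Om →₀ ℤ)}
    (h : ∀ n, F (Finsupp.single n 1) = G (Finsupp.single n 1)) : F = G := by
  refine Finsupp.lhom_ext' fun n => ?_
  refine LinearMap.ext_ring ?_
  exact h n

theorem op_mul (f g : Om → Option Om) : op f * op g = op (fun n => (g n).bind f) := by
  refine op_ext fun n => ?_
  rw [Module.End.mul_apply, op_single, op_single]
  cases hg : g n with
  | none => simp
  | some m =>
    simp only [Option.bind_some]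
    rw [op_single]

theorem op_one : op some = 1 := by
  refine op_ext fun n => ?_
  rw [op_single]
  rfl

theorem op_zero : op (fun _ => none) = 0 := by
  refine op_ext fun n => ?_
  rw [op_single]
  rfl

theorem op_add (f g h : Om → Option Om)
    (H : ∀ n, (f n = h n ∧ g n = none) ∨ (f n = none ∧ g n = h n)) : op f + op g = op h := by
  refine op_ext fun n => ?_
  rw [LinearMap.add_apply, op_single, op_single, op_single]
  rcases H n with ⟨h1, h2⟩ | ⟨h1, h2⟩
  · rw [h1, h2]
    simp
  · rw [h1, h2]
    simp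

def S0 (n : Om) : Option Om := some (fun i => if i = 0 then n 0 + 1 else n i)
def T0 (n : Om) : Option Om :=
  if n 0 = 0 then none else some (fun i => if i = 0 then n 0 - 1 else n i)
def S1 (n : Om) : Option Om :=
  some (fun i => if i = 0 then 0 else if 0 < i then n (i - 1) else n i)
def T1 (n : Om) : Option Om :=
  if n 0 = 0 then some (fun i => if 0 ≤ i then n (i + 1) else n i) else none
def GG (n : Om) : Option Om :=
  some (fun i => if i = 0 then n 1 else if i = 1 then n 0 else n i)
def UU (n : Om) : Option Om := some (fun i => n (i - 1))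
def VV (n : Om) : Option Om := some (fun i => n (i + 1))
def QQ (n : Om) : Option Om := some (fun i => if i = 1 then n 1 + n 0 else n i)

theorem m_ts00 : op T0 * op S0 = 1 := by
  simp only [op_mul, ← op_one, ← op_zero]
  refine congrArg op (funext fun n => ?_)
  by_cases h0 : n 0 = 0 <;> by_cases h1 : n 1 = 0 <;>
  simp [S0, S1, T0, T1, GG, UU, VV, QQ, h0, h1] <;>
  (funext i; split_ifs <;> first | rfl | omega | (subst_vars; first | rfl | omega | (simp [*]; done)) | (congr 1; omega) | (simp [*]; done) | skip)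

theorem m_ts11 : op T1 * op S1 = 1 := by
  simp only [op_mul, ← op_one, ← op_zero]
  refine congrArg op (funext fun n => ?_)
  by_cases h0 : n 0 = 0 <;> by_cases h1 : n 1 = 0 <;>
  simp [S0, S1, T0, T1, GG, UU, VV, QQ, h0, h1] <;>
  (funext i; split_ifs <;> first | rfl | omega | (subst_vars; first | rfl | omega | (simp [*]; done)) | (congr 1; omega) | (simp [*]; done) | skip)

theorem m_ts01 : op T0 * op S1 = 0 := by
  simp only [op_mul, ← op_one, ← op_zero]
  refine congrArg op (funext fun n => ?_)
  by_cases h0 : n 0 = 0 <;> by_cases h1 : n 1 = 0 <;>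
  simp [S0, S1, T0, T1, GG, UU, VV, QQ, h0, h1] <;>
  (funext i; split_ifs <;> first | rfl | omega | (subst_vars; first | rfl | omega | (simp [*]; done)) | (congr 1; omega) | (simp [*]; done) | skip)

theorem m_ts10 : op T1 * op S0 = 0 := by
  simp only [op_mul, ← op_one, ← op_zero]
  refine congrArg op (funext fun n => ?_)
  by_cases h0 : n 0 = 0 <;> by_cases h1 : n 1 = 0 <;>
  simp [S0, S1, T0, T1, GG, UU, VV, QQ, h0, h1] <;>
  (funext i; split_ifs <;> first | rfl | omega | (subst_vars; first | rfl | omega | (simp [*]; done)) | (congr 1; omega) | (simp [*]; done) | skip)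

theorem m_gg : op GG * op GG = 1 := by
  simp only [op_mul, ← op_one, ← op_zero]
  refine congrArg op (funext fun n => ?_)
  by_cases h0 : n 0 = 0 <;> by_cases h1 : n 1 = 0 <;>
  simp [S0, S1, T0, T1, GG, UU, VV, QQ, h0, h1] <;>
  (funext i; split_ifs <;> first | rfl | omega | (subst_vars; first | rfl | omega | (simp [*]; done)) | (congr 1; omega) | (simp [*]; done) | skip)

theorem m_uv : op UU * op VV = 1 := by
  simp only [op_mul, ← op_one, ← op_zero]
  refine congrArg op (funext fun n => ?_)
  by_cases h0 : n 0 = 0 <;> by_cases h1 : n 1 = 0 <;>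
  simp [S0, S1, T0, T1, GG, UU, VV, QQ, h0, h1] <;>
  (funext i; split_ifs <;> first | rfl | omega | (subst_vars; first | rfl | omega | (simp [*]; done)) | (congr 1; omega) | (simp [*]; done) | skip)

theorem m_vu : op VV * op UU = 1 := by
  simp only [op_mul, ← op_one, ← op_zero]
  refine congrArg op (funext fun n => ?_)
  by_cases h0 : n 0 = 0 <;> by_cases h1 : n 1 = 0 <;>
  simp [S0, S1, T0, T1, GG, UU, VV, QQ, h0, h1] <;>
  (funext i; split_ifs <;> first | rfl | omega | (subst_vars; first | rfl | omega | (simp [*]; done)) | (congr 1; omega) | (simp [*]; done) | skip)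

theorem m_q2 : op T1 * op GG * op QQ * op GG * op S1 = op S1 * op T1 := by
  simp only [op_mul, ← op_one, ← op_zero]
  refine congrArg op (funext fun n => ?_)
  by_cases h0 : n 0 = 0 <;> by_cases h1 : n 1 = 0 <;>
  simp [S0, S1, T0, T1, GG, UU, VV, QQ, h0, h1] <;>
  (funext i; split_ifs <;> first | rfl | omega | (subst_vars; first | rfl | omega | (simp [*]; done)) | (congr 1; omega) | (simp [*]; done) | skip)

theorem m_bs0_1 : (op GG * op S0 * op GG) * op S1 = op S1 * op S0 := by
  simp only [op_mul, ← op_one, ← op_zero]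
  refine congrArg op (funext fun n => ?_)
  by_cases h0 : n 0 = 0 <;> by_cases h1 : n 1 = 0 <;>
  simp [S0, S1, T0, T1, GG, UU, VV, QQ, h0, h1] <;>
  (funext i; split_ifs <;> first | rfl | omega | (subst_vars; first | rfl | omega | (simp [*]; done)) | (congr 1; omega) | (simp [*]; done) | skip)

theorem m_bs0_2 : op T1 * (op GG * op S0 * op GG) = op S0 * op T1 := by
  simp only [op_mul, ← op_one, ← op_zero]
  refine congrArg op (funext fun n => ?_)
  by_cases h0 : n 0 = 0 <;> by_cases h1 : n 1 = 0 <;>
  simp [S0, S1, T0, T1, GG, UU, VV, QQ, h0, h1] <;>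
  (funext i; split_ifs <;> first | rfl | omega | (subst_vars; first | rfl | omega | (simp [*]; done)) | (congr 1; omega) | (simp [*]; done) | skip)

theorem m_bs0_3 : (op GG * op S0 * op GG) * op S0 = op S0 * (op GG * op S0 * op GG) := by
  simp only [op_mul, ← op_one, ← op_zero]
  refine congrArg op (funext fun n => ?_)
  by_cases h0 : n 0 = 0 <;> by_cases h1 : n 1 = 0 <;>
  simp [S0, S1, T0, T1, GG, UU, VV, QQ, h0, h1] <;>
  (funext i; split_ifs <;> first | rfl | omega | (subst_vars; first | rfl | omega | (simp [*]; done)) | (congr 1; omega) | (simp [*]; done) | skip)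

theorem m_bs0_4 : (op GG * op S0 * op GG) * op T0 = op T0 * (op GG * op S0 * op GG) := by
  simp only [op_mul, ← op_one, ← op_zero]
  refine congrArg op (funext fun n => ?_)
  by_cases h0 : n 0 = 0 <;> by_cases h1 : n 1 = 0 <;>
  simp [S0, S1, T0, T1, GG, UU, VV, QQ, h0, h1] <;>
  (funext i; split_ifs <;> first | rfl | omega | (subst_vars; first | rfl | omega | (simp [*]; done)) | (congr 1; omega) | (simp [*]; done) | skip)

theorem m_bs1_1 : (op GG * op S1) * op S1 = op S1 * op S1 := by
  simp only [op_mul, ← op_one, ← op_zero]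
  refine congrArg op (funext fun n => ?_)
  by_cases h0 : n 0 = 0 <;> by_cases h1 : n 1 = 0 <;>
  simp [S0, S1, T0, T1, GG, UU, VV, QQ, h0, h1] <;>
  (funext i; split_ifs <;> first | rfl | omega | (subst_vars; first | rfl | omega | (simp [*]; done)) | (congr 1; omega) | (simp [*]; done) | skip)

theorem m_bs1_2 : op T1 * (op GG * op S1) = op S1 * op T1 := by
  simp only [op_mul, ← op_one, ← op_zero]
  refine congrArg op (funext fun n => ?_)
  by_cases h0 : n 0 = 0 <;> by_cases h1 : n 1 = 0 <;>
  simp [S0, S1, T0, T1, GG, UU, VV, QQ, h0, h1] <;>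
  (funext i; split_ifs <;> first | rfl | omega | (subst_vars; first | rfl | omega | (simp [*]; done)) | (congr 1; omega) | (simp [*]; done) | skip)

theorem m_bs1_3 : (op GG * op S1) * op S0 = op S0 * (op GG * op S1) := by
  simp only [op_mul, ← op_one, ← op_zero]
  refine congrArg op (funext fun n => ?_)
  by_cases h0 : n 0 = 0 <;> by_cases h1 : n 1 = 0 <;>
  simp [S0, S1, T0, T1, GG, UU, VV, QQ, h0, h1] <;>
  (funext i; split_ifs <;> first | rfl | omega | (subst_vars; first | rfl | omega | (simp [*]; done)) | (congr 1; omega) | (simp [*]; done) | skip)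

theorem m_bs1_4 : (op GG * op S1) * op T0 = op T0 * (op GG * op S1) := by
  simp only [op_mul, ← op_one, ← op_zero]
  refine congrArg op (funext fun n => ?_)
  by_cases h0 : n 0 = 0 <;> by_cases h1 : n 1 = 0 <;>
  simp [S0, S1, T0, T1, GG, UU, VV, QQ, h0, h1] <;>
  (funext i; split_ifs <;> first | rfl | omega | (subst_vars; first | rfl | omega | (simp [*]; done)) | (congr 1; omega) | (simp [*]; done) | skip)

theorem m_bt0_1 : (op GG * op T0 * op GG) * op S1 = op S1 * op T0 := by
  simp only [op_mul, ← op_one, ← op_zero]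
  refine congrArg op (funext fun n => ?_)
  by_cases h0 : n 0 = 0 <;> by_cases h1 : n 1 = 0 <;>
  simp [S0, S1, T0, T1, GG, UU, VV, QQ, h0, h1] <;>
  (funext i; split_ifs <;> first | rfl | omega | (subst_vars; first | rfl | omega | (simp [*]; done)) | (congr 1; omega) | (simp [*]; done) | skip)

theorem m_bt0_2 : op T1 * (op GG * op T0 * op GG) = op T0 * op T1 := by
  simp only [op_mul, ← op_one, ← op_zero]
  refine congrArg op (funext fun n => ?_)
  by_cases h0 : n 0 = 0 <;> by_cases h1 : n 1 = 0 <;>
  simp [S0, S1, T0, T1, GG, UU, VV, QQ, h0, h1] <;>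
  (funext i; split_ifs <;> first | rfl | omega | (subst_vars; first | rfl | omega | (simp [*]; done)) | (congr 1; omega) | (simp [*]; done) | skip)

theorem m_bt0_3 : (op GG * op T0 * op GG) * op S0 = op S0 * (op GG * op T0 * op GG) := by
  simp only [op_mul, ← op_one, ← op_zero]
  refine congrArg op (funext fun n => ?_)
  by_cases h0 : n 0 = 0 <;> by_cases h1 : n 1 = 0 <;>
  simp [S0, S1, T0, T1, GG, UU, VV, QQ, h0, h1] <;>
  (funext i; split_ifs <;> first | rfl | omega | (subst_vars; first | rfl | omega | (simp [*]; done)) | (congr 1; omega) | (simp [*]; done) | skip)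

theorem m_bt0_4 : (op GG * op T0 * op GG) * op T0 = op T0 * (op GG * op T0 * op GG) := by
  simp only [op_mul, ← op_one, ← op_zero]
  refine congrArg op (funext fun n => ?_)
  by_cases h0 : n 0 = 0 <;> by_cases h1 : n 1 = 0 <;>
  simp [S0, S1, T0, T1, GG, UU, VV, QQ, h0, h1] <;>
  (funext i; split_ifs <;> first | rfl | omega | (subst_vars; first | rfl | omega | (simp [*]; done)) | (congr 1; omega) | (simp [*]; done) | skip)

theorem m_bt1_1 : (op T1 * op GG) * op S1 = op S1 * op T1 := by
  simp only [op_mul, ← op_one, ← op_zero]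
  refine congrArg op (funext fun n => ?_)
  by_cases h0 : n 0 = 0 <;> by_cases h1 : n 1 = 0 <;>
  simp [S0, S1, T0, T1, GG, UU, VV, QQ, h0, h1] <;>
  (funext i; split_ifs <;> first | rfl | omega | (subst_vars; first | rfl | omega | (simp [*]; done)) | (congr 1; omega) | (simp [*]; done) | skip)

theorem m_bt1_2 : op T1 * (op T1 * op GG) = op T1 * op T1 := by
  simp only [op_mul, ← op_one, ← op_zero]
  refine congrArg op (funext fun n => ?_)
  by_cases h0 : n 0 = 0 <;> by_cases h1 : n 1 = 0 <;>
  simp [S0, S1, T0, T1, GG, UU, VV, QQ, h0, h1] <;>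
  (funext i; split_ifs <;> first | rfl | omega | (subst_vars; first | rfl | omega | (simp [*]; done)) | (congr 1; omega) | (simp [*]; done) | skip)

theorem m_bt1_3 : (op T1 * op GG) * op S0 = op S0 * (op T1 * op GG) := by
  simp only [op_mul, ← op_one, ← op_zero]
  refine congrArg op (funext fun n => ?_)
  by_cases h0 : n 0 = 0 <;> by_cases h1 : n 1 = 0 <;>
  simp [S0, S1, T0, T1, GG, UU, VV, QQ, h0, h1] <;>
  (funext i; split_ifs <;> first | rfl | omega | (subst_vars; first | rfl | omega | (simp [*]; done)) | (congr 1; omega) | (simp [*]; done) | skip)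

theorem m_bt1_4 : (op T1 * op GG) * op T0 = op T0 * (op T1 * op GG) := by
  simp only [op_mul, ← op_one, ← op_zero]
  refine congrArg op (funext fun n => ?_)
  by_cases h0 : n 0 = 0 <;> by_cases h1 : n 1 = 0 <;>
  simp [S0, S1, T0, T1, GG, UU, VV, QQ, h0, h1] <;>
  (funext i; split_ifs <;> first | rfl | omega | (subst_vars; first | rfl | omega | (simp [*]; done)) | (congr 1; omega) | (simp [*]; done) | skip)

theorem m_bg_1 : (op UU * op GG * op VV) * op S1 = op S1 * op GG := by
  simp only [op_mul, ← op_one, ← op_zero]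
  refine congrArg op (funext fun n => ?_)
  by_cases h0 : n 0 = 0 <;> by_cases h1 : n 1 = 0 <;>
  simp [S0, S1, T0, T1, GG, UU, VV, QQ, h0, h1] <;>
  (funext i; split_ifs <;> first | rfl | omega | (subst_vars; first | rfl | omega | (simp [*]; done)) | (congr 1; omega) | (simp [*]; done) | skip)

theorem m_bg_2 : op T1 * (op UU * op GG * op VV) = op GG * op T1 := by
  simp only [op_mul, ← op_one, ← op_zero]
  refine congrArg op (funext fun n => ?_)
  by_cases h0 : n 0 = 0 <;> by_cases h1 : n 1 = 0 <;>
  simp [S0, S1, T0, T1, GG, UU, VV, QQ, h0, h1] <;>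
  (funext i; split_ifs <;> first | rfl | omega | (subst_vars; first | rfl | omega | (simp [*]; done)) | (congr 1; omega) | (simp [*]; done) | skip)

theorem m_bg_3 : (op UU * op GG * op VV) * op S0 = op S0 * (op UU * op GG * op VV) := by
  simp only [op_mul, ← op_one, ← op_zero]
  refine congrArg op (funext fun n => ?_)
  by_cases h0 : n 0 = 0 <;> by_cases h1 : n 1 = 0 <;>
  simp [S0, S1, T0, T1, GG, UU, VV, QQ, h0, h1] <;>
  (funext i; split_ifs <;> first | rfl | omega | (subst_vars; first | rfl | omega | (simp [*]; done)) | (congr 1; omega) | (simp [*]; done) | skip)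

theorem m_bg_4 : (op UU * op GG * op VV) * op T0 = op T0 * (op UU * op GG * op VV) := by
  simp only [op_mul, ← op_one, ← op_zero]
  refine congrArg op (funext fun n => ?_)
  by_cases h0 : n 0 = 0 <;> by_cases h1 : n 1 = 0 <;>
  simp [S0, S1, T0, T1, GG, UU, VV, QQ, h0, h1] <;>
  (funext i; split_ifs <;> first | rfl | omega | (subst_vars; first | rfl | omega | (simp [*]; done)) | (congr 1; omega) | (simp [*]; done) | skip)

theorem m_bu_1 : (op GG * op UU) * op S1 = op S1 * op UU := by
  simp only [op_mul, ← op_one, ← op_zero]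
  refine congrArg op (funext fun n => ?_)
  by_cases h0 : n 0 = 0 <;> by_cases h1 : n 1 = 0 <;>
  simp [S0, S1, T0, T1, GG, UU, VV, QQ, h0, h1] <;>
  (funext i; split_ifs <;> first | rfl | omega | (subst_vars; first | rfl | omega | (simp [*]; done)) | (congr 1; omega) | (simp [*]; done) | skip)

theorem m_bu_2 : op T1 * (op GG * op UU) = op UU * op T1 := by
  simp only [op_mul, ← op_one, ← op_zero]
  refine congrArg op (funext fun n => ?_)
  by_cases h0 : n 0 = 0 <;> by_cases h1 : n 1 = 0 <;>
  simp [S0, S1, T0, T1, GG, UU, VV, QQ, h0, h1] <;>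
  (funext i; split_ifs <;> first | rfl | omega | (subst_vars; first | rfl | omega | (simp [*]; done)) | (congr 1; omega) | (simp [*]; done) | skip)

theorem m_bu_3 : (op GG * op UU) * op S0 = op S0 * (op GG * op UU) := by
  simp only [op_mul, ← op_one, ← op_zero]
  refine congrArg op (funext fun n => ?_)
  by_cases h0 : n 0 = 0 <;> by_cases h1 : n 1 = 0 <;>
  simp [S0, S1, T0, T1, GG, UU, VV, QQ, h0, h1] <;>
  (funext i; split_ifs <;> first | rfl | omega | (subst_vars; first | rfl | omega | (simp [*]; done)) | (congr 1; omega) | (simp [*]; done) | skip)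

theorem m_bu_4 : (op GG * op UU) * op T0 = op T0 * (op GG * op UU) := by
  simp only [op_mul, ← op_one, ← op_zero]
  refine congrArg op (funext fun n => ?_)
  by_cases h0 : n 0 = 0 <;> by_cases h1 : n 1 = 0 <;>
  simp [S0, S1, T0, T1, GG, UU, VV, QQ, h0, h1] <;>
  (funext i; split_ifs <;> first | rfl | omega | (subst_vars; first | rfl | omega | (simp [*]; done)) | (congr 1; omega) | (simp [*]; done) | skip)

theorem m_bv_1 : (op VV * op GG) * op S1 = op S1 * op VV := by
  simp only [op_mul, ← op_one, ← op_zero]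
  refine congrArg op (funext fun n => ?_)
  by_cases h0 : n 0 = 0 <;> by_cases h1 : n 1 = 0 <;>
  simp [S0, S1, T0, T1, GG, UU, VV, QQ, h0, h1] <;>
  (funext i; split_ifs <;> first | rfl | omega | (subst_vars; first | rfl | omega | (simp [*]; done)) | (congr 1; omega) | (simp [*]; done) | skip)

theorem m_bv_2 : op T1 * (op VV * op GG) = op VV * op T1 := by
  simp only [op_mul, ← op_one, ← op_zero]
  refine congrArg op (funext fun n => ?_)
  by_cases h0 : n 0 = 0 <;> by_cases h1 : n 1 = 0 <;>
  simp [S0, S1, T0, T1, GG, UU, VV, QQ, h0, h1] <;>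
  (funext i; split_ifs <;> first | rfl | omega | (subst_vars; first | rfl | omega | (simp [*]; done)) | (congr 1; omega) | (simp [*]; done) | skip)

theorem m_bv_3 : (op VV * op GG) * op S0 = op S0 * (op VV * op GG) := by
  simp only [op_mul, ← op_one, ← op_zero]
  refine congrArg op (funext fun n => ?_)
  by_cases h0 : n 0 = 0 <;> by_cases h1 : n 1 = 0 <;>
  simp [S0, S1, T0, T1, GG, UU, VV, QQ, h0, h1] <;>
  (funext i; split_ifs <;> first | rfl | omega | (subst_vars; first | rfl | omega | (simp [*]; done)) | (congr 1; omega) | (simp [*]; done) | skip)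

theorem m_bv_4 : (op VV * op GG) * op T0 = op T0 * (op VV * op GG) := by
  simp only [op_mul, ← op_one, ← op_zero]
  refine congrArg op (funext fun n => ?_)
  by_cases h0 : n 0 = 0 <;> by_cases h1 : n 1 = 0 <;>
  simp [S0, S1, T0, T1, GG, UU, VV, QQ, h0, h1] <;>
  (funext i; split_ifs <;> first | rfl | omega | (subst_vars; first | rfl | omega | (simp [*]; done)) | (congr 1; omega) | (simp [*]; done) | skip)

theorem m_bq_1 : (op UU * op QQ * op VV) * op S1 = op S1 * op QQ := by
  simp only [op_mul, ← op_one, ← op_zero]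
  refine congrArg op (funext fun n => ?_)
  by_cases h0 : n 0 = 0 <;> by_cases h1 : n 1 = 0 <;>
  simp [S0, S1, T0, T1, GG, UU, VV, QQ, h0, h1] <;>
  (funext i; split_ifs <;> first | rfl | omega | (subst_vars; first | rfl | omega | (simp [*]; done)) | (congr 1; omega) | (simp [*]; done) | skip)

theorem m_bq_2 : op T1 * (op UU * op QQ * op VV) = op QQ * op T1 := by
  simp only [op_mul, ← op_one, ← op_zero]
  refine congrArg op (funext fun n => ?_)
  by_cases h0 : n 0 = 0 <;> by_cases h1 : n 1 = 0 <;>
  simp [S0, S1, T0, T1, GG, UU, VV, QQ, h0, h1] <;>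
  (funext i; split_ifs <;> first | rfl | omega | (subst_vars; first | rfl | omega | (simp [*]; done)) | (congr 1; omega) | (simp [*]; done) | skip)

theorem m_bq_3 : (op UU * op QQ * op VV) * op S0 = op S0 * (op UU * op QQ * op VV) := by
  simp only [op_mul, ← op_one, ← op_zero]
  refine congrArg op (funext fun n => ?_)
  by_cases h0 : n 0 = 0 <;> by_cases h1 : n 1 = 0 <;>
  simp [S0, S1, T0, T1, GG, UU, VV, QQ, h0, h1] <;>
  (funext i; split_ifs <;> first | rfl | omega | (subst_vars; first | rfl | omega | (simp [*]; done)) | (congr 1; omega) | (simp [*]; done) | skip)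

theorem m_bq_4 : (op UU * op QQ * op VV) * op T0 = op T0 * (op UU * op QQ * op VV) := by
  simp only [op_mul, ← op_one, ← op_zero]
  refine congrArg op (funext fun n => ?_)
  by_cases h0 : n 0 = 0 <;> by_cases h1 : n 1 = 0 <;>
  simp [S0, S1, T0, T1, GG, UU, VV, QQ, h0, h1] <;>
  (funext i; split_ifs <;> first | rfl | omega | (subst_vars; first | rfl | omega | (simp [*]; done)) | (congr 1; omega) | (simp [*]; done) | skip)

theorem m_sum : op S0 * op T0 + op S1 * op T1 = 1 := by
  rw [op_mul, op_mul, ← op_one]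
  refine op_add _ _ _ fun n => ?_
  by_cases h0 : n 0 = 0
  · right
    refine ⟨by simp [T0, h0], ?_⟩
    simp [T1, S1, h0]
    funext i
    split_ifs <;> first | rfl | omega | (subst_vars; first | rfl | omega | (simp [*]; done)) | (congr 1; omega) | (simp [*]; done) | skip
  · left
    refine ⟨?_, by simp [T1, h0]⟩
    simp [T0, S0, h0]
    funext i
    split_ifs <;> first | rfl | omega | (subst_vars; first | rfl | omega | (simp [*]; done)) | (congr 1; omega) | (simp [*]; done) | skip

theorem m_q1 : op QQ = op S1 * op T1 + op S0 * (op GG * op S0 * op GG) * op QQ * op T0 := by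
  simp only [op_mul]
  symm
  refine op_add _ _ _ fun n => ?_
  by_cases h0 : n 0 = 0
  · left
    refine ⟨?_, by simp [T0, h0]⟩
    simp [T1, S1, QQ, h0]
    funext i
    split_ifs <;> first | rfl | omega | (subst_vars; first | rfl | omega | (simp [*]; done)) | (congr 1; omega) | (simp [*]; done) | skip
  · right
    refine ⟨by simp [T1, h0], ?_⟩
    simp [T0, S0, QQ, GG, h0]
    funext i
    split_ifs <;> first | rfl | omega | (subst_vars; first | rfl | omega | (simp [*]; done)) | (congr 1; omega) | (simp [*]; done) | skip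

theorem model_op : Model (op S0) (op S1) (op T0) (op T1) (op GG) (op UU) (op VV) (op QQ) 0 where
  ts00 := m_ts00
  ts11 := m_ts11
  ts01 := m_ts01
  ts10 := m_ts10
  sum := m_sum
  gg := m_gg
  uv := m_uv
  vu := m_vu
  q1 := m_q1
  q2 := m_q2
  dd := by simp
  dq := by simp
  bd := ⟨by simp, by simp, by simp, by simp, by simp⟩
  bs0 := ⟨m_bs0_1, m_bs0_2, m_bs0_3, m_bs0_4, by simp⟩
  bs1 := ⟨m_bs1_1, m_bs1_2, m_bs1_3, m_bs1_4, by simp⟩
  bt0 := ⟨m_bt0_1, m_bt0_2, m_bt0_3, m_bt0_4, by simp⟩
  bt1 := ⟨m_bt1_1, m_bt1_2, m_bt1_3, m_bt1_4, by simp⟩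
  bg := ⟨m_bg_1, m_bg_2, m_bg_3, m_bg_4, by simp⟩
  bu := ⟨m_bu_1, m_bu_2, m_bu_3, m_bu_4, by simp⟩
  bv := ⟨m_bv_1, m_bv_2, m_bv_3, m_bv_4, by simp⟩
  bq := ⟨m_bq_1, m_bq_2, m_bq_3, m_bq_4, by simp⟩

theorem op_nontrivial : (1 : Module.End ℤ (Om →₀ ℤ)) ≠ 0 := by
  intro h
  have h1 := congrArg (fun F : Module.End ℤ (Om →₀ ℤ) => F (Finsupp.single (fun _ => 0) 1) (fun _ => 0)) h
  simp at h1

end Pool.Agent.H665S
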