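import Pool.Agent.H665S.Defs

set_option autoImplicit false

namespace Pool.Agent.H665S

open scoped commutatorElement


/-- the standard action of the elementary generators on column vectors -/
def act {R : Type} [Ring R] (i j : Idx) (r : R) : Equiv.Perm (Idx → R) where
  toFun v := fun a => if a = i ∧ i ≠ j then v a + r * v j else v a
  invFun v := fun a => if a = i ∧ i ≠ j then v a + (-r) * v j else v a
  left_inv v := by
    funext a
    by_cases h : a = i ∧ i ≠ j
    · obtain ⟨rfl, h2⟩ := h
      have h3 : ¬ (j = a) := fun h => h2 h.symm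
      simp [h2, h3]
    · simp [h]
  right_inv v := by
    funext a
    by_cases h : a = i ∧ i ≠ j
    · obtain ⟨rfl, h2⟩ := h
      have h3 : ¬ (j = a) := fun h => h2 h.symm
      simp [h2, h3]
    · simp [h]

theorem act_apply {R : Type} [Ring R] (i j : Idx) (r : R) (v : Idx → R) (a : Idx) :
    act i j r v a = if a = i ∧ i ≠ j then v a + r * v j else v a := rfl

theorem act_isSt (R : Type) [Ring R] : IsSt (act (R := R)) where
  diag i r := by
    ext v a
    simp [act_apply]
  add i j r s := by
    ext v a
    rw [Equiv.Perm.mul_apply]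
    by_cases h : a = i ∧ i ≠ j
    · obtain ⟨rfl, h2⟩ := h
      have h3 : ¬ (j = a) := fun h => h2 h.symm
      simp only [act_apply, h2, h3, ne_eq, not_false_eq_true, and_self, if_true, false_and,
        if_false]
      rw [add_mul, add_assoc, add_comm (r * v j)]
    · simp [act_apply, h]
  comm i j k l r s h1 h2 h3 h4 := by
    ext v a
    rw [Equiv.Perm.mul_apply, Equiv.Perm.mul_apply]
    have h3' : ¬ (k = j) := fun h => h3 h.symm
    have h4' : ¬ (l = i) := fun h => h4 h.symm
    by_cases ha : a = i
    · subst ha
      by_cases hk : a = k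
      · subst hk
        simp only [act_apply, h1, h2, h3, h3', h4, h4', ne_eq, not_false_eq_true, and_self,
          if_true, false_and, if_false]
        rw [add_assoc, add_assoc, add_comm (s * v l)]
      · simp [act_apply, h1, h3, h4', hk]
    · by_cases hk : a = k
      · subst hk
        simp [act_apply, h2, h3', h4', ha]
      · simp [act_apply, ha, hk]
  mul i j k r s h1 h2 h3 := by
    rw [commutatorElement_def, mul_inv_eq_iff_eq_mul, mul_inv_eq_iff_eq_mul]
    ext v a
    simp only [Equiv.Perm.mul_apply]
    have h1' : ¬ (j = i) := fun h => h1 h.symm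
    have h2' : ¬ (k = j) := fun h => h2 h.symm
    have h3' : ¬ (k = i) := fun h => h3 h.symm
    by_cases ha : a = i
    · subst ha
      simp only [act_apply, h1, h2, h3, h1', h2', h3', ne_eq, not_false_eq_true, and_self,
          if_true, false_and, if_false]
      rw [mul_add, mul_assoc, add_assoc]
    · by_cases hk : a = j
      · subst hk
        simp [act_apply, h2, h3', h2', ha]
      · simp [act_apply, ha, hk]

theorem St.nontrivial (R : Type) [Ring R] [Nontrivial R] : Nontrivial (St R) := by
  refine ⟨⟨St.x 0 1 1, 1, ?_⟩⟩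
  intro h
  have h2 := congrArg (St.lift (act_isSt R)) h
  rw [St.lift_x, map_one] at h2
  have h3 := congrFun (DFunLike.congr_fun h2 (Pi.single 1 1)) 0
  simp [act_apply] at h3

theorem isSt_comp {R S : Type} [Ring R] [Ring S] (e : R ≃+* S) :
    IsSt (fun i j r => St.x i j (e r)) where
  diag i r := St.isSt.diag i _
  add i j r s := by rw [map_add]; exact St.isSt.add i j _ _
  comm i j k l r s h1 h2 h3 h4 := St.isSt.comm i j k l _ _ h1 h2 h3 h4
  mul i j k r s h1 h2 h3 := by rw [map_mul]; exact St.isSt.mul i j k _ _ h1 h2 h3

theorem St.congr {R S : Type} [Ring R] [Ring S] (e : R ≃+* S) : Nonempty (St R ≃* St S) := by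
  have e1 : (St.lift (isSt_comp e.symm)).comp (St.lift (isSt_comp e)) = MonoidHom.id (St R) := by
    apply St.hom_ext
    intro i j r
    simp [St.lift_x]
  have e2 : (St.lift (isSt_comp e)).comp (St.lift (isSt_comp e.symm)) = MonoidHom.id (St S) := by
    apply St.hom_ext
    intro i j r
    simp [St.lift_x]
  exact ⟨MonoidHom.toMulEquiv (St.lift (isSt_comp e)) (St.lift (isSt_comp e.symm)) e1 e2⟩

end Pool.Agent.H665S
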