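import Pool.Agent.H665S.Defs

set_option autoImplicit false

namespace Pool.Agent.H665S

open scoped commutatorElement


theorem IsSt.zero {R G : Type} [Ring R] [Group G] {x : Idx → Idx → R → G} (h : IsSt x)
    (i j : Idx) : x i j 0 = 1 := by
  have := h.add i j 0 0
  rw [add_zero] at this
  exact left_eq_mul.mp this

theorem St.ind {R : Type} [Ring R] {p : St R → Prop} (h1 : p 1)
    (hmul : ∀ a b, p a → p b → p (a * b)) (hinv : ∀ a, p a → p a⁻¹)
    (hx : ∀ i j r, p (St.x i j r)) (a : St R) : p a := by
  have hcl : Subgroup.closure (Set.range (PresentedGroup.of (rels := stRels R))) = ⊤ :=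
    PresentedGroup.closure_range_of (stRels R)
  have ha : a ∈ Subgroup.closure (Set.range (PresentedGroup.of (rels := stRels R))) := by
    rw [hcl]; trivial
  induction ha using Subgroup.closure_induction with
  | mem y hy =>
    obtain ⟨⟨i, j, r⟩, rfl⟩ := hy
    exact hx i j r
  | one => exact h1
  | mul a b _ _ iha ihb => exact hmul a b iha ihb
  | inv a _ iha => exact hinv a iha

theorem St.comm_gen (R S : Type) [Ring R] [Ring S] (i j k l : Idx) (r : R) (s : S) :
    Commute (St.x i j ((r, 0) : R × S)) (St.x k l ((0, s) : R × S)) := by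
  have hst := St.isSt (R := R × S)
  have hb : ∀ i j l : Idx, i ≠ j → j ≠ l → i ≠ l → ∀ (r : R) (s : S),
      Commute (St.x i j ((r, 0) : R × S)) (St.x j l ((0, s) : R × S)) := by
    intro i j l hij hjl hil r s
    rw [← commutatorElement_eq_one_iff_commute, hst.mul i j l _ _ hij hjl hil]
    have : ((r, 0) : R × S) * (0, s) = 0 := by simp
    rw [this, hst.zero]
  have hc : ∀ i j k : Idx, k ≠ i → i ≠ j → k ≠ j → ∀ (r : R) (s : S),
      Commute (St.x i j ((r, 0) : R × S)) (St.x k i ((0, s) : R × S)) := by
    intro i j k hki hij hkj r s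
    refine Commute.symm ?_
    rw [← commutatorElement_eq_one_iff_commute, hst.mul k i j _ _ hki hij hkj]
    have : ((0, s) : R × S) * (r, 0) = 0 := by simp
    rw [this, hst.zero]
  by_cases hij : i = j
  · subst hij
    rw [hst.diag]
    exact Commute.one_left _
  by_cases hkl : k = l
  · subst hkl
    rw [hst.diag]
    exact Commute.one_right _
  by_cases hjk : j = k
  · subst hjk
    by_cases hil : i = l
    · subst hil
      have hex : ∀ i j : Idx, ∃ m : Idx, m ≠ i ∧ m ≠ j := by decide
      obtain ⟨m, hmi, hmj⟩ := hex i j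
      have h1 : St.x j i ((0, s) : R × S) =
          ⁅St.x j m ((0, s) : R × S), St.x m i ((0, 1) : R × S)⁆ := by
        rw [hst.mul j m i _ _ (Ne.symm hmj) hmi hkl]
        simp
      rw [h1, commutatorElement_def]
      have h2 := hb i j m hij (Ne.symm hmj) (Ne.symm hmi) r s
      have h3 := hc i j m hmi hij hmj r (1 : S)
      exact ((h2.mul_right h3).mul_right h2.inv_right).mul_right h3.inv_right
    · exact hb i j l hij hkl hil r s
  · by_cases hil : i = l
    · subst hil
      exact hc i j k hkl hij (Ne.symm hjk) r s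
    · exact hst.comm i j k l _ _ hij hkl hjk hil

theorem St.prod_equiv (R S : Type) [Ring R] [Ring S] :
    Nonempty (St (R × S) ≃* St R × St S) := by
  have hR := St.isSt (R := R)
  have hS := St.isSt (R := S)
  have hRS := St.isSt (R := R × S)
  have hF : IsSt (fun (i j : Idx) (r : R × S) => ((St.x i j r.1, St.x i j r.2) : St R × St S)) := by
    refine ⟨fun i r => ?_, fun i j r s => ?_, fun i j k l r s h1 h2 h3 h4 => ?_,
      fun i j k r s h1 h2 h3 => ?_⟩
    · exact Prod.ext (hR.diag i r.1) (hS.diag i r.2)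
    · exact Prod.ext (hR.add i j r.1 s.1) (hS.add i j r.2 s.2)
    · exact Prod.ext (hR.comm i j k l r.1 s.1 h1 h2 h3 h4) (hS.comm i j k l r.2 s.2 h1 h2 h3 h4)
    · exact Prod.ext (hR.mul i j k r.1 s.1 h1 h2 h3) (hS.mul i j k r.2 s.2 h1 h2 h3)
  have hA : IsSt (fun (i j : Idx) (r : R) => St.x i j ((r, 0) : R × S)) := by
    refine ⟨fun i r => hRS.diag i _, fun i j r s => ?_, fun i j k l r s h1 h2 h3 h4 =>
      hRS.comm i j k l _ _ h1 h2 h3 h4, fun i j k r s h1 h2 h3 => ?_⟩
    · show St.x i j ((r + s, 0) : R × S) = _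
      rw [← hRS.add]
      simp
    · show ⁅St.x i j ((r, 0) : R × S), St.x j k ((s, 0) : R × S)⁆ = St.x i k ((r * s, 0) : R × S)
      rw [hRS.mul i j k _ _ h1 h2 h3]
      simp
  have hB : IsSt (fun (i j : Idx) (s : S) => St.x i j ((0, s) : R × S)) := by
    refine ⟨fun i r => hRS.diag i _, fun i j r s => ?_, fun i j k l r s h1 h2 h3 h4 =>
      hRS.comm i j k l _ _ h1 h2 h3 h4, fun i j k r s h1 h2 h3 => ?_⟩
    · show St.x i j ((0, r + s) : R × S) = _
      rw [← hRS.add]
      simp
    · show ⁅St.x i j ((0, r) : R × S), St.x j k ((0, s) : R × S)⁆ = St.x i k ((0, r * s) : R × S)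
      rw [hRS.mul i j k _ _ h1 h2 h3]
      simp
  let F := St.lift hF
  let A := St.lift hA
  let B := St.lift hB
  have hcomm : ∀ (a : St R) (b : St S), Commute (A a) (B b) := by
    intro a
    refine St.ind ?_ ?_ ?_ ?_
    · rw [map_one]
      exact Commute.one_right _
    · intro b b' h1 h2
      rw [map_mul]
      exact h1.mul_right h2
    · intro b h1
      rw [map_inv]
      exact h1.inv_right
    · intro k l s
      have h1 : B (St.x k l s) = St.x k l ((0, s) : R × S) := St.lift_x hB k l s
      rw [h1]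
      refine St.ind (p := fun a => Commute (A a) (St.x k l ((0, s) : R × S))) ?_ ?_ ?_ ?_ a
      · rw [map_one]
        exact Commute.one_left _
      · intro b b' h1 h2
        rw [map_mul]
        exact h1.mul_left h2
      · intro b h1
        rw [map_inv]
        exact h1.inv_left
      · intro i j r
        have h2 : A (St.x i j r) = St.x i j ((r, 0) : R × S) := St.lift_x hA i j r
        show Commute (A (St.x i j r)) _
        rw [h2]
        exact St.comm_gen R S i j k l r s
  let G : St R × St S →* St (R × S) := MonoidHom.noncommCoprod A B hcomm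
  have hFA : F.comp A = MonoidHom.inl (St R) (St S) := by
    apply St.hom_ext
    intro i j r
    have h1 : A (St.x i j r) = St.x i j ((r, 0) : R × S) := St.lift_x hA i j r
    have h2 : F (St.x i j ((r, 0) : R × S)) = (St.x i j r, St.x i j (0 : S)) :=
      St.lift_x hF i j (r, 0)
    rw [MonoidHom.comp_apply, h1, h2, hS.zero]
    rfl
  have hFB : F.comp B = MonoidHom.inr (St R) (St S) := by
    apply St.hom_ext
    intro i j r
    have h1 : B (St.x i j r) = St.x i j ((0, r) : R × S) := St.lift_x hB i j r
    have h2 : F (St.x i j ((0, r) : R × S)) = (St.x i j (0 : R), St.x i j r) :=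
      St.lift_x hF i j (0, r)
    rw [MonoidHom.comp_apply, h1, h2, hR.zero]
    rfl
  refine ⟨MonoidHom.toMulEquiv F G ?_ ?_⟩
  · apply St.hom_ext
    intro i j r
    have h1 : F (St.x i j r) = (St.x i j r.1, St.x i j r.2) := St.lift_x hF i j r
    have h2 : A (St.x i j r.1) = St.x i j ((r.1, 0) : R × S) := St.lift_x hA i j r.1
    have h3 : B (St.x i j r.2) = St.x i j ((0, r.2) : R × S) := St.lift_x hB i j r.2
    rw [MonoidHom.comp_apply, h1]
    show A (St.x i j r.1) * B (St.x i j r.2) = St.x i j r
    rw [h2, h3, ← hRS.add]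
    simp
  · ext ab : 1
    obtain ⟨a, b⟩ := ab
    show F (A a * B b) = (a, b)
    have h1 : F (A a) = (a, 1) := DFunLike.congr_fun hFA a
    have h2 : F (B b) = (1, b) := DFunLike.congr_fun hFB b
    rw [map_mul, h1, h2]
    simp

end Pool.Agent.H665S
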