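import Pool.Agent.H665S.Defs

set_option autoImplicit false

namespace Pool.Agent.H665S

open scoped commutatorElement


/-- the finite system of relations -/
structure IsFin {X G : Type} [Group G] (y : Idx → Idx → Option X → G) : Prop where
  diag : ∀ i a, y i i a = 1
  comm : ∀ i j k l a b, i ≠ j → k ≠ l → j ≠ k → i ≠ l → Commute (y i j a) (y k l b)
  indep : ∀ i j k l a b, i ≠ k → j ≠ i → j ≠ k → l ≠ i → l ≠ k →
    ⁅y i j a, y j k b⁆ = ⁅y i l a, y l k b⁆
  mul_one : ∀ i j k a, i ≠ j → j ≠ k → i ≠ k → ⁅y i j a, y j k none⁆ = y i k a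
  one_mul : ∀ i j k a, i ≠ j → j ≠ k → i ≠ k → ⁅y i j none, y j k a⁆ = y i k a

/-- an index different from both arguments -/
def pick (i j : Idx) : Idx :=
  if i ≠ 0 ∧ j ≠ 0 then 0 else if i ≠ 1 ∧ j ≠ 1 then 1 else 2

/-- the element attached to a word -/
def wordY {X G : Type} [Group G] (y : Idx → Idx → Option X → G) : Idx → Idx → List X → G
  | i, j, [] => y i j none
  | i, j, (a :: w) => ⁅y i (pick i j) (some a), wordY y (pick i j) j w⁆

theorem key {G : Type} [Group G] {x y z : G} (h1 : Commute x z)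
    (h2 : Commute ⁅x, y⁆ ⁅y, z⁆) (h3 : Commute z ⁅y, z⁆) : ⁅x, ⁅y, z⁆⁆ = ⁅⁅x, y⁆, z⁆ := by
  have e1 : x * y * x⁻¹ = ⁅x, y⁆ * y := by
    rw [commutatorElement_def]; group
  have e2 : y * z * y⁻¹ = ⁅y, z⁆ * z := by
    rw [commutatorElement_def]; group
  have e3 : x * z * x⁻¹ = z := by
    rw [h1.eq]; group
  have e4 : x * ⁅y, z⁆ * x⁻¹ = ⁅y, z⁆ * ⁅⁅x, y⁆, z⁆ := by
    calc x * ⁅y, z⁆ * x⁻¹ = (x * y * x⁻¹) * (x * z * x⁻¹) * (x * y * x⁻¹)⁻¹ * (x * z * x⁻¹)⁻¹ := by
          rw [commutatorElement_def y z]; group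
      _ = ⁅x, y⁆ * (y * z * y⁻¹) * ⁅x, y⁆⁻¹ * z⁻¹ := by
          rw [e1, e3]; group
      _ = (⁅x, y⁆ * ⁅y, z⁆) * z * ⁅x, y⁆⁻¹ * z⁻¹ := by
          rw [e2]; group
      _ = (⁅y, z⁆ * ⁅x, y⁆) * z * ⁅x, y⁆⁻¹ * z⁻¹ := by rw [h2.eq]
      _ = ⁅y, z⁆ * ⁅⁅x, y⁆, z⁆ := by
          rw [commutatorElement_def ⁅x, y⁆ z]; group
  have hc : Commute ⁅⁅x, y⁆, z⁆ ⁅y, z⁆ := by
    rw [commutatorElement_def ⁅x, y⁆ z]
    exact ((h2.mul_left h3).mul_left h2.inv_left).mul_left h3.inv_left
  calc ⁅x, ⁅y, z⁆⁆ = (x * ⁅y, z⁆ * x⁻¹) * ⁅y, z⁆⁻¹ := by rw [commutatorElement_def]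
    _ = ⁅y, z⁆ * ⁅⁅x, y⁆, z⁆ * ⁅y, z⁆⁻¹ := by rw [e4]
    _ = ⁅⁅x, y⁆, z⁆ * ⁅y, z⁆ * ⁅y, z⁆⁻¹ := by rw [hc.eq]
    _ = ⁅⁅x, y⁆, z⁆ := by group

theorem j6768_ex4 (i j k l : Idx) : ∃ m : Idx, m ≠ i ∧ m ≠ j ∧ m ≠ k ∧ m ≠ l := by
  have h : ∃ m : Idx, m ∉ ({i, j, k, l} : Finset Idx) := by
    by_contra hcon
    push Not at hcon
    have h1 : (Finset.univ : Finset Idx) ⊆ {i, j, k, l} := fun m _ => hcon m
    have h2 := Finset.card_le_card h1
    have h3 : ({i, j, k, l} : Finset Idx).card ≤ 4 := Finset.card_le_four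
    simp at h2
    omega
  obtain ⟨m, hm⟩ := h
  simp only [Finset.mem_insert, Finset.mem_singleton, not_or] at hm
  exact ⟨m, hm.1, hm.2.1, hm.2.2.1, hm.2.2.2⟩

theorem j6768_pick_ne : ∀ i j : Idx, pick i j ≠ i ∧ pick i j ≠ j := by decide

theorem j6768_wordY_nil {X G : Type} [Group G] (y : Idx → Idx → Option X → G) (i j : Idx) :
    wordY y i j [] = y i j none := rfl

theorem j6768_wordY_letter {X G : Type} [Group G] {y : Idx → Idx → Option X → G} (h : IsFin y)
    (a : X) (i j : Idx) (hij : i ≠ j) : wordY y i j [a] = y i j (some a) := by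
  have hp := j6768_pick_ne i j
  exact h.mul_one i (pick i j) j (some a) hp.1.symm hp.2 hij

theorem j6768_comm_comm {G : Type} [Group G] {g a b : G} (h1 : Commute g a) (h2 : Commute g b) :
    Commute g ⁅a, b⁆ := by
  rw [commutatorElement_def]
  exact ((h1.mul_right h2).mul_right h1.inv_right).mul_right h2.inv_right

theorem j6768_wordY_main {X G : Type} [Group G] {y : Idx → Idx → Option X → G} (h : IsFin y) (q : ℕ) :
    (∀ (a : X) (w : List X), w.length ≤ q → ∀ i j k : Idx, i ≠ j → k ≠ i → k ≠ j →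
      wordY y i j (a :: w) = ⁅y i k (some a), wordY y k j w⁆) ∧
    (∀ u v : List X, u.length ≤ q + 1 → v.length ≤ q + 1 → ∀ i j k l : Idx, i ≠ j → k ≠ l →
      j ≠ k → i ≠ l → Commute (wordY y i j u) (wordY y k l v)) := by
  induction q with
  | zero =>
    have hsh : ∀ (u : List X) (i j : Idx), u.length ≤ 0 + 1 → i ≠ j →
        ∃ o, wordY y i j u = y i j o := by
      intro u i j hu hij
      match u, hu with
      | [], _ => exact ⟨none, rfl⟩
      | [a], _ => exact ⟨some a, j6768_wordY_letter h a i j hij⟩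
    constructor
    · intro a w hw i j k hij hki hkj
      have : w = [] := List.length_eq_zero_iff.mp (by omega)
      subst this
      rw [j6768_wordY_letter h a i j hij, j6768_wordY_nil, h.mul_one i k j (some a) hki.symm hkj hij]
    · intro u v hu hv i j k l h1 h2 h3 h4
      obtain ⟨o, ho⟩ := hsh u i j hu h1
      obtain ⟨o', ho'⟩ := hsh v k l hv h2
      rw [ho, ho']
      exact h.comm i j k l o o' h1 h2 h3 h4
  | succ q ih =>
    obtain ⟨ihI, ihC⟩ := ih
    -- commuting with a letter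
    have hlet : ∀ (u : List X) (b : X), u.length ≤ q + 1 → ∀ i j k l : Idx, i ≠ j → k ≠ l →
        j ≠ k → i ≠ l → Commute (wordY y i j u) (y k l (some b)) := by
      intro u b hu i j k l h1 h2 h3 h4
      rw [← j6768_wordY_letter h b k l h2]
      exact ihC u [b] hu (by simp) i j k l h1 h2 h3 h4
    have hkey : ∀ (a b : X) (w' : List X), w'.length ≤ q → ∀ i j k l m : Idx,
        i ≠ j → k ≠ i → k ≠ j → l ≠ i → l ≠ j → k ≠ l → m ≠ i → m ≠ j → m ≠ k → m ≠ l →
        ⁅y i k (some a), wordY y k j (b :: w')⁆ =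
          ⁅⁅y i k (some a), y k m (some b)⁆, wordY y m j w'⁆ := by
      intro a b w' hw' i j k l m hij hki hkj hli hlj hkl hmi hmj hmk hml
      have hd := ihI b w' hw' k j m hkj hmk hmj
      rw [hd]
      apply key
      · exact (hlet w' a (by omega) m j i k hmj hki.symm hij.symm hmk).symm
      · rw [h.indep i k m l (some a) (some b) hmi.symm hki hmk.symm hli hml.symm, ← hd]
        refine (j6768_comm_comm ?_ ?_).symm
        · exact hlet (b :: w') a (by simpa using hw') k j i l hkj hli.symm hij.symm hkl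
        · exact hlet (b :: w') b (by simpa using hw') k j l m hkj hml.symm hlj.symm hmk.symm
      · rw [← hd]
        exact ihC w' (b :: w') (by omega) (by simpa using hw') m j k j hmj hkj hkj.symm hmj
    have hind : ∀ (a : X) (w : List X), w.length ≤ q + 1 → ∀ i j k l : Idx,
        i ≠ j → k ≠ i → k ≠ j → l ≠ i → l ≠ j →
        ⁅y i k (some a), wordY y k j w⁆ = ⁅y i l (some a), wordY y l j w⁆ := by
      intro a w hw i j k l hij hki hkj hli hlj
      rcases eq_or_ne k l with hkl | hkl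
      · rw [hkl]
      match w, hw with
      | [], _ =>
        rw [j6768_wordY_nil, j6768_wordY_nil, h.mul_one i k j (some a) hki.symm hkj hij,
          h.mul_one i l j (some a) hli.symm hlj hij]
      | b :: w', hw =>
        obtain ⟨m, hmi, hmj, hmk, hml⟩ := j6768_ex4 i j k l
        have hw' : w'.length ≤ q := by simpa using hw
        rw [hkey a b w' hw' i j k l m hij hki hkj hli hlj hkl hmi hmj hmk hml,
          hkey a b w' hw' i j l k m hij hli hlj hki hkj hkl.symm hmi hmj hml hmk,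
          h.indep i k m l (some a) (some b) hmi.symm hki hmk.symm hli hml.symm]
    have hI : ∀ (a : X) (w : List X), w.length ≤ q + 1 → ∀ i j k : Idx, i ≠ j → k ≠ i → k ≠ j →
        wordY y i j (a :: w) = ⁅y i k (some a), wordY y k j w⁆ := by
      intro a w hw i j k hij hki hkj
      have hp := j6768_pick_ne i j
      exact hind a w hw i j (pick i j) k hij hp.1 hp.2 hki hkj
    have hC1 : ∀ u v : List X, u.length ≤ q + 1 → v.length ≤ q + 2 → ∀ i j k l : Idx, i ≠ j →
        k ≠ l → j ≠ k → i ≠ l → Commute (wordY y i j u) (wordY y k l v) := by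
      intro u v hu hv i j k l h1 h2 h3 h4
      match v, hv with
      | [], _ => exact ihC u [] hu (by simp) i j k l h1 h2 h3 h4
      | b :: v', hv =>
        have hv' : v'.length ≤ q + 1 := by simpa using hv
        obtain ⟨m, hmi, hmj, hmk, hml⟩ := j6768_ex4 i j k l
        rw [hI b v' hv' k l m h2 hmk hml]
        refine j6768_comm_comm ?_ ?_
        · exact hlet u b hu i j k m h1 hmk.symm h3 hmi.symm
        · exact ihC u v' hu hv' i j m l h1 hml hmj.symm h4
    refine ⟨hI, ?_⟩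
    intro u v hu hv i j k l h1 h2 h3 h4
    match u, hu with
    | [], _ => exact hC1 [] v (by simp) hv i j k l h1 h2 h3 h4
    | a :: u', hu =>
      have hu' : u'.length ≤ q + 1 := by simpa using hu
      obtain ⟨m, hmi, hmj, hmk, hml⟩ := j6768_ex4 i j k l
      rw [hI a u' hu' i j m h1 hmi hmj]
      refine (j6768_comm_comm ?_ ?_).symm
      · rw [← j6768_wordY_letter h a i m hmi.symm]
        exact (hC1 [a] v (by simp) hv i m k l hmi.symm h2 hmk h4).symm
      · exact (hC1 u' v hu' hv m j k l hmj h2 h3 hml).symm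

theorem wordY_indep {X G : Type} [Group G] {y : Idx → Idx → Option X → G} (h : IsFin y)
    (a : X) (w : List X) (i j k : Idx) (hij : i ≠ j) (hki : k ≠ i) (hkj : k ≠ j) :
    wordY y i j (a :: w) = ⁅y i k (some a), wordY y k j w⁆ :=
  (j6768_wordY_main h w.length).1 a w le_rfl i j k hij hki hkj

theorem wordY_comm {X G : Type} [Group G] {y : Idx → Idx → Option X → G} (h : IsFin y)
    (u v : List X) (i j k l : Idx) (h1 : i ≠ j) (h2 : k ≠ l) (h3 : j ≠ k) (h4 : i ≠ l) :
    Commute (wordY y i j u) (wordY y k l v) :=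
  (j6768_wordY_main h (u.length + v.length)).2 u v (by omega) (by omega) i j k l h1 h2 h3 h4

theorem wordY_mul {X G : Type} [Group G] {y : Idx → Idx → Option X → G} (h : IsFin y)
    (u v : List X) (i j k : Idx) (h1 : i ≠ j) (h2 : j ≠ k) (h3 : i ≠ k) :
    ⁅wordY y i j u, wordY y j k v⁆ = wordY y i k (u ++ v) := by
  induction u generalizing i j with
  | nil =>
    rw [List.nil_append, j6768_wordY_nil]
    match v with
    | [] =>
      rw [j6768_wordY_nil, j6768_wordY_nil]
      exact h.mul_one i j k none h1 h2 h3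
    | b :: v' =>
      obtain ⟨m, hmi, hmj, hmk, -⟩ := j6768_ex4 i j k k
      have hd := wordY_indep h b v' j k m h2 hmj hmk
      have h5 : ⁅y i j none, y j m (some b)⁆ = y i m (some b) :=
        h.one_mul i j m (some b) h1 hmj.symm hmi.symm
      rw [hd, key, h5, wordY_indep h b v' i k m h3 hmi hmk]
      · rw [← j6768_wordY_nil y i j]
        exact wordY_comm h [] v' i j m k h1 hmk hmj.symm h3
      · rw [h5, ← hd, ← j6768_wordY_letter h b i m hmi.symm]
        exact wordY_comm h [b] (b :: v') i m j k hmi.symm h2 hmj h3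
      · rw [← hd]
        exact wordY_comm h v' (b :: v') m k j k hmk h2 h2.symm hmk
  | cons a u' ih =>
    obtain ⟨m, hmi, hmj, hmk, -⟩ := j6768_ex4 i j k k
    have hu := wordY_indep h a u' i j m h1 hmi hmj
    have h5 := ih m j hmj h2 hmk
    rw [hu, ← key, h5, List.cons_append, wordY_indep h a (u' ++ v) i k m h3 hmi hmk]
    · rw [← j6768_wordY_letter h a i m hmi.symm]
      exact wordY_comm h [a] v i m j k hmi.symm h2 hmj h3
    · rw [h5, ← hu]
      exact wordY_comm h (a :: u') (u' ++ v) i j m k h1 hmk hmj.symm h3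
    · rw [h5]
      exact wordY_comm h v (u' ++ v) j k m k h2 hmk hmk.symm h2

end Pool.Agent.H665S
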