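import Pool.Agent.H665S.Pres
import Pool.Agent.H665S.Ext
import Pool.Agent.H665S.Words
import Pool.Agent.H665S.Ker
import Pool.Agent.H665S.Prod
import Pool.Agent.H665S.NonTriv
import Pool.Agent.H665S.FPres
import Pool.Agent.H665S.ModelZ

set_option autoImplicit false

namespace Pool.Agent.H665S

open scoped commutatorElement

/-- a finite system extends to a Steinberg system over the free ring -/
theorem exists_isSt (X : Type) (G : Type) [Group G] (y : Idx → Idx → Option X → G)
    (h : IsFin y) :
    ∃ x : Idx → Idx → FreeRing X → G, IsSt x ∧ (∀ i j, x i j 1 = y i j none) ∧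
      (∀ i j a, x i j (FreeRing.of a) = y i j (some a)) := by
  obtain ⟨x, hx, h1, h2⟩ := exists_isSt_of_words (wordY y)
    (fun u v i j k l => wordY_comm h u v i j k l) (fun u v i j k => wordY_mul h u v i j k)
  refine ⟨x, hx, ?_, ?_⟩
  · intro i j
    by_cases hij : i = j
    · subst hij
      rw [hx.diag, h.diag]
    · rw [h1 i j hij, wordY]
  · intro i j a
    by_cases hij : i = j
    · subst hij
      rw [hx.diag, h.diag]
    · rw [h2 i j a hij]
      exact j6768_wordY_letter h a i j hij

theorem FP_St_free : FP (St (FreeRing (Fin 9))) := by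
  obtain ⟨e⟩ := St_freeRing_equiv (Fin 9) (fun G _ y h => exists_isSt (Fin 9) G y h)
  refine FP.of_surjective e.toMonoidHom e.surjective ∅ Set.finite_empty ?_
    (FP.of_presented (finRels (Fin 9)) (finRels_finite (Fin 9)))
  rw [Subgroup.normalClosure_empty]
  symm
  rw [MonoidHom.ker_eq_bot_iff]
  exact e.injective

theorem FP_St_RR : FP (St RR) := by
  refine FP.of_surjective (St.map mk) (St.map_surjective mk mk_surjective)
    {w : St FR | ∃ i j : Idx, ∃ t ∈ relSet, w = St.x i j t} ?_
    (St.ker_map mk mk_surjective relSet mk_eq_zero) FP_St_free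
  have h : {w : St FR | ∃ i j : Idx, ∃ t ∈ relSet, w = St.x i j t} =
      ⋃ i : Idx, ⋃ j : Idx, (fun t => St.x i j t) '' relSet := by
    ext w
    simp only [Set.mem_ofPred_eq, Set.mem_iUnion, Set.mem_image, eq_comm]
  rw [h]
  exact Set.finite_iUnion fun i => Set.finite_iUnion fun j => relSet_finite.image _

instance : Nontrivial RR := by
  obtain ⟨p, -⟩ := exists_hom model_op
  refine ⟨⟨1, 0, fun h => op_nontrivial ?_⟩⟩
  rw [← map_one p, h, map_zero]

theorem main : ∃ (G : Type) (_ : Group G), Nontrivial G ∧ FP G ∧ Nonempty (G ≃* G × G) := by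
  refine ⟨St RR, inferInstance, St.nontrivial RR, FP_St_RR, ?_⟩
  obtain ⟨e⟩ := RR_equiv
  obtain ⟨e1⟩ := St.congr e
  obtain ⟨e2⟩ := St.prod_equiv RR RR
  exact ⟨e1.trans e2⟩

end Pool.Agent.H665S
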