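import Pool.Agent.H665S.Words
import Pool.Agent.H665S.Ker

set_option autoImplicit false

namespace Pool.Agent.H665S

open scoped commutatorElement

/-- the finitely many relators over the letters `X` -/
def finRels (X : Type) : Set (FreeGroup (Idx × Idx × Option X)) :=
  {w | (∃ (i : Idx) (a : Option X), w = FreeGroup.of (i, i, a)) ∨
    (∃ (i j k l : Idx) (a b : Option X), i ≠ j ∧ k ≠ l ∧ j ≠ k ∧ i ≠ l ∧
      w = ⁅FreeGroup.of (i, j, a), FreeGroup.of (k, l, b)⁆) ∨
    (∃ (i j k l : Idx) (a b : Option X), i ≠ k ∧ j ≠ i ∧ j ≠ k ∧ l ≠ i ∧ l ≠ k ∧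
      w = ⁅FreeGroup.of (i, j, a), FreeGroup.of (j, k, b)⁆ *
        ⁅FreeGroup.of (i, l, a), FreeGroup.of (l, k, b)⁆⁻¹) ∨
    (∃ (i j k : Idx) (a : Option X), i ≠ j ∧ j ≠ k ∧ i ≠ k ∧
      w = ⁅FreeGroup.of (i, j, a), FreeGroup.of (j, k, (none : Option X))⁆ *
        (FreeGroup.of (i, k, a))⁻¹) ∨
    (∃ (i j k : Idx) (a : Option X), i ≠ j ∧ j ≠ k ∧ i ≠ k ∧
      w = ⁅FreeGroup.of (i, j, (none : Option X)), FreeGroup.of (j, k, a)⁆ *
        (FreeGroup.of (i, k, a))⁻¹)}

theorem finRels_finite (X : Type) [Finite X] : (finRels X).Finite := by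
  let F1 : Idx × Option X → FreeGroup (Idx × Idx × Option X) :=
    fun p => FreeGroup.of (p.1, p.1, p.2)
  let F2 : Idx × Idx × Idx × Idx × Option X × Option X → FreeGroup (Idx × Idx × Option X) :=
    fun p => ⁅FreeGroup.of (p.1, p.2.1, p.2.2.2.2.1),
      FreeGroup.of (p.2.2.1, p.2.2.2.1, p.2.2.2.2.2)⁆
  let F3 : Idx × Idx × Idx × Idx × Option X × Option X → FreeGroup (Idx × Idx × Option X) :=
    fun p => ⁅FreeGroup.of (p.1, p.2.1, p.2.2.2.2.1),
      FreeGroup.of (p.2.1, p.2.2.1, p.2.2.2.2.2)⁆ *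
      ⁅FreeGroup.of (p.1, p.2.2.2.1, p.2.2.2.2.1),
      FreeGroup.of (p.2.2.2.1, p.2.2.1, p.2.2.2.2.2)⁆⁻¹
  let F4 : Idx × Idx × Idx × Option X → FreeGroup (Idx × Idx × Option X) :=
    fun p => ⁅FreeGroup.of (p.1, p.2.1, p.2.2.2),
      FreeGroup.of (p.2.1, p.2.2.1, (none : Option X))⁆ * (FreeGroup.of (p.1, p.2.2.1, p.2.2.2))⁻¹
  let F5 : Idx × Idx × Idx × Option X → FreeGroup (Idx × Idx × Option X) :=
    fun p => ⁅FreeGroup.of (p.1, p.2.1, (none : Option X)),
      FreeGroup.of (p.2.1, p.2.2.1, p.2.2.2)⁆ * (FreeGroup.of (p.1, p.2.2.1, p.2.2.2))⁻¹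
  refine ((Set.finite_range F1).union ((Set.finite_range F2).union ((Set.finite_range F3).union
    ((Set.finite_range F4).union (Set.finite_range F5))))).subset ?_
  rintro w (⟨i, a, rfl⟩ | ⟨i, j, k, l, a, b, -, -, -, -, rfl⟩ |
    ⟨i, j, k, l, a, b, -, -, -, -, -, rfl⟩ | ⟨i, j, k, a, -, -, -, rfl⟩ |
    ⟨i, j, k, a, -, -, -, rfl⟩)
  · exact Or.inl ⟨(i, a), rfl⟩
  · exact Or.inr (Or.inl ⟨(i, j, k, l, a, b), rfl⟩)
  · exact Or.inr (Or.inr (Or.inl ⟨(i, j, k, l, a, b), rfl⟩))
  · exact Or.inr (Or.inr (Or.inr (Or.inl ⟨(i, j, k, a), rfl⟩)))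
  · exact Or.inr (Or.inr (Or.inr (Or.inr ⟨(i, j, k, a), rfl⟩)))

/-- the generators of the finitely presented group -/
def gy (X : Type) (i j : Idx) (a : Option X) : PresentedGroup (finRels X) :=
  PresentedGroup.of (rels := finRels X) (i, j, a)

theorem gy_isFin (X : Type) : IsFin (gy X) where
  diag i a := by
    have h : FreeGroup.of (i, i, a) ∈ finRels X := Or.inl ⟨i, a, rfl⟩
    exact PresentedGroup.one_of_mem h
  comm i j k l a b h1 h2 h3 h4 := by
    have h : ⁅FreeGroup.of (i, j, a), FreeGroup.of (k, l, b)⁆ ∈ finRels X :=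
      Or.inr (Or.inl ⟨i, j, k, l, a, b, h1, h2, h3, h4, rfl⟩)
    have h2 := PresentedGroup.one_of_mem h
    rw [map_commutatorElement, commutatorElement_eq_one_iff_commute] at h2
    exact h2
  indep i j k l a b h1 h2 h3 h4 h5 := by
    have h : ⁅FreeGroup.of (i, j, a), FreeGroup.of (j, k, b)⁆ *
        ⁅FreeGroup.of (i, l, a), FreeGroup.of (l, k, b)⁆⁻¹ ∈ finRels X :=
      Or.inr (Or.inr (Or.inl ⟨i, j, k, l, a, b, h1, h2, h3, h4, h5, rfl⟩))
    have h2 := PresentedGroup.one_of_mem h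
    rw [map_mul, map_inv, mul_inv_eq_one, map_commutatorElement, map_commutatorElement] at h2
    exact h2
  mul_one i j k a h1 h2 h3 := by
    have h : ⁅FreeGroup.of (i, j, a), FreeGroup.of (j, k, (none : Option X))⁆ *
        (FreeGroup.of (i, k, a))⁻¹ ∈ finRels X :=
      Or.inr (Or.inr (Or.inr (Or.inl ⟨i, j, k, a, h1, h2, h3, rfl⟩)))
    have h2 := PresentedGroup.one_of_mem h
    rw [map_mul, map_inv, mul_inv_eq_one, map_commutatorElement] at h2
    exact h2
  one_mul i j k a h1 h2 h3 := by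
    have h : ⁅FreeGroup.of (i, j, (none : Option X)), FreeGroup.of (j, k, a)⁆ *
        (FreeGroup.of (i, k, a))⁻¹ ∈ finRels X :=
      Or.inr (Or.inr (Or.inr (Or.inr ⟨i, j, k, a, h1, h2, h3, rfl⟩)))
    have h2 := PresentedGroup.one_of_mem h
    rw [map_mul, map_inv, mul_inv_eq_one, map_commutatorElement] at h2
    exact h2

/-- the ring element of a letter -/
def letterElt (X : Type) : Option X → FreeRing X
  | none => 1
  | some a => FreeRing.of a

/-- the map from the finitely presented group -/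
def toSt (X : Type) : PresentedGroup (finRels X) →* St (FreeRing X) :=
  PresentedGroup.toGroup (rels := finRels X)
    (f := fun p => St.x p.1 p.2.1 (letterElt X p.2.2)) (by
    have h := St.isSt (R := FreeRing X)
    rintro w (⟨i, a, rfl⟩ | ⟨i, j, k, l, a, b, h1, h2, h3, h4, rfl⟩ |
      ⟨i, j, k, l, a, b, h1, h2, h3, h4, h5, rfl⟩ | ⟨i, j, k, a, h1, h2, h3, rfl⟩ |
      ⟨i, j, k, a, h1, h2, h3, rfl⟩)
    · simpa using h.diag i _
    · rw [map_commutatorElement, commutatorElement_eq_one_iff_commute]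
      simpa using h.comm i j k l _ _ h1 h2 h3 h4
    · rw [map_mul, map_inv, mul_inv_eq_one, map_commutatorElement, map_commutatorElement]
      simp only [FreeGroup.lift_apply_of]
      rw [h.mul i j k _ _ h2.symm h3 h1, h.mul i l k _ _ h4.symm h5 h1]
    · rw [map_mul, map_inv, mul_inv_eq_one, map_commutatorElement]
      simp only [FreeGroup.lift_apply_of]
      rw [h.mul i j k _ _ h1 h2 h3]
      simp only [letterElt, _root_.mul_one]
    · rw [map_mul, map_inv, mul_inv_eq_one, map_commutatorElement]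
      simp only [FreeGroup.lift_apply_of]
      rw [h.mul i j k _ _ h1 h2 h3]
      simp only [letterElt, _root_.one_mul])

theorem toSt_gy (X : Type) (i j : Idx) (a : Option X) :
    toSt X (gy X i j a) = St.x i j (letterElt X a) :=
  PresentedGroup.toGroup.of _

theorem St_freeRing_equiv (X : Type)
    (hext : ∀ (G : Type) [Group G] (y : Idx → Idx → Option X → G), IsFin y →
      ∃ x : Idx → Idx → FreeRing X → G, IsSt x ∧ (∀ i j, x i j 1 = y i j none) ∧
      (∀ i j a, x i j (FreeRing.of a) = y i j (some a))) :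
    Nonempty (PresentedGroup (finRels X) ≃* St (FreeRing X)) := by
  obtain ⟨x, hx, h1, h2⟩ := hext _ (gy X) (gy_isFin X)
  have hz : ∀ i j, x i j 0 = 1 := fun i j => hx.zero i j
  have hB : ∀ r : FreeRing X, ∀ i j, toSt X (x i j r) = St.x i j r := by
    intro r
    refine FreeRing.induction_on r ?_ ?_ ?_ ?_
    · intro i j
      rw [hx.neg, h1, map_inv, toSt_gy, (St.isSt).neg]
      rfl
    · intro a i j
      rw [h2, toSt_gy]
      rfl
    · intro a b ha hb i j
      rw [hx.add, map_mul, ha, hb, (St.isSt).add]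
    · intro a b ha hb i j
      by_cases hij : i = j
      · subst hij
        rw [hx.diag, (St.isSt).diag, map_one]
      · obtain ⟨k, hk1, hk2⟩ := third_idx i j
        rw [← hx.mul i k j a b hk1.symm hk2 hij, map_commutatorElement, ha, hb,
          (St.isSt).mul i k j a b hk1.symm hk2 hij]
  refine ⟨MonoidHom.toMulEquiv (toSt X) (St.lift hx) ?_ ?_⟩
  · apply PresentedGroup.ext
    rintro ⟨i, j, a⟩
    change St.lift hx (toSt X (gy X i j a)) = gy X i j a
    rw [toSt_gy, St.lift_x]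
    cases a with
    | none => exact h1 i j
    | some a => exact h2 i j a
  · apply St.hom_ext
    intro i j r
    change toSt X (St.lift hx (St.x i j r)) = St.x i j r
    rw [St.lift_x, hB]

end Pool.Agent.H665S
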