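import Mathlib

set_option autoImplicit false

namespace Pool.Agent.H665S

section models

variable {A : Type} [Ring A]

/-- `b` is the shifted copy of `x`, and `d` commutes with it -/
structure Beta (s0 s1 t0 t1 d x b : A) : Prop where
  h1 : b * s1 = s1 * x
  h2 : t1 * b = x * t1
  h3 : b * s0 = s0 * b
  h4 : b * t0 = t0 * b
  h5 : d * b = b * d

/-- the relations of the ring -/
structure Model (s0 s1 t0 t1 g u v q d : A) : Prop where
  ts00 : t0 * s0 = 1
  ts11 : t1 * s1 = 1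
  ts01 : t0 * s1 = 0
  ts10 : t1 * s0 = 0
  sum : s0 * t0 + s1 * t1 = 1
  gg : g * g = 1
  uv : u * v = 1
  vu : v * u = 1
  q1 : q = s1 * t1 + s0 * (g * s0 * g) * q * t0
  q2 : t1 * g * q * g * s1 = s1 * t1
  dd : d * d = d
  dq : d * q = q * d
  bs0 : Beta s0 s1 t0 t1 d s0 (g * s0 * g)
  bs1 : Beta s0 s1 t0 t1 d s1 (g * s1)
  bt0 : Beta s0 s1 t0 t1 d t0 (g * t0 * g)
  bt1 : Beta s0 s1 t0 t1 d t1 (t1 * g)
  bg : Beta s0 s1 t0 t1 d g (u * g * v)
  bu : Beta s0 s1 t0 t1 d u (g * u)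
  bv : Beta s0 s1 t0 t1 d v (v * g)
  bq : Beta s0 s1 t0 t1 d q (u * q * v)
  bd : Beta s0 s1 t0 t1 d d (g * d * g)

variable {s0 s1 t0 t1 g u v q d : A}

theorem Beta.mul {x y b c : A} (hx : Beta s0 s1 t0 t1 d x b) (hy : Beta s0 s1 t0 t1 d y c) :
    Beta s0 s1 t0 t1 d (x * y) (b * c) where
  h1 := by rw [mul_assoc, hy.h1, ← mul_assoc, hx.h1, mul_assoc]
  h2 := by rw [← mul_assoc, hx.h2, mul_assoc, hy.h2, mul_assoc]
  h3 := by rw [mul_assoc, hy.h3, ← mul_assoc, hx.h3, mul_assoc]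
  h4 := by rw [mul_assoc, hy.h4, ← mul_assoc, hx.h4, mul_assoc]
  h5 := by rw [← mul_assoc, hx.h5, mul_assoc, hy.h5, mul_assoc]

theorem Beta.add {x y b c : A} (hx : Beta s0 s1 t0 t1 d x b) (hy : Beta s0 s1 t0 t1 d y c) :
    Beta s0 s1 t0 t1 d (x + y) (b + c) where
  h1 := by rw [add_mul, hx.h1, hy.h1, mul_add]
  h2 := by rw [mul_add, hx.h2, hy.h2, add_mul]
  h3 := by rw [add_mul, hx.h3, hy.h3, mul_add]
  h4 := by rw [add_mul, hx.h4, hy.h4, mul_add]
  h5 := by rw [mul_add, hx.h5, hy.h5, add_mul]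

theorem Beta.central {e : A} (he : ∀ a : A, e * a = a * e) : Beta s0 s1 t0 t1 d e e where
  h1 := he _
  h2 := (he _).symm
  h3 := he _
  h4 := he _
  h5 := (he _).symm

/-- change of the last letter -/
theorem Beta.change {x b d' : A} (hx : Beta s0 s1 t0 t1 d x b) (h : d' * b = b * d') :
    Beta s0 s1 t0 t1 d' x b where
  h1 := hx.h1
  h2 := hx.h2
  h3 := hx.h3
  h4 := hx.h4
  h5 := h

/-- general principle for changing `d` -/
theorem Model.change (h : Model s0 s1 t0 t1 g u v q d) {d' : A} (hdd : d' * d' = d')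
    (hdq : d' * q = q * d') (hcomm : ∀ x b, Beta s0 s1 t0 t1 d x b → d' * b = b * d')
    (hb : Beta s0 s1 t0 t1 d d' (g * d' * g)) : Model s0 s1 t0 t1 g u v q d' where
  ts00 := h.ts00
  ts11 := h.ts11
  ts01 := h.ts01
  ts10 := h.ts10
  sum := h.sum
  gg := h.gg
  uv := h.uv
  vu := h.vu
  q1 := h.q1
  q2 := h.q2
  dd := hdd
  dq := hdq
  bs0 := h.bs0.change (hcomm _ _ h.bs0)
  bs1 := h.bs1.change (hcomm _ _ h.bs1)
  bt0 := h.bt0.change (hcomm _ _ h.bt0)
  bt1 := h.bt1.change (hcomm _ _ h.bt1)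
  bg := h.bg.change (hcomm _ _ h.bg)
  bu := h.bu.change (hcomm _ _ h.bu)
  bv := h.bv.change (hcomm _ _ h.bv)
  bq := h.bq.change (hcomm _ _ h.bq)
  bd := hb.change (hcomm _ _ hb)

theorem Model.q_s0 (h : Model s0 s1 t0 t1 g u v q d) : q * s0 = s0 * (g * s0 * g) * q := by
  have := h.q1
  calc q * s0 = (s1 * t1 + s0 * (g * s0 * g) * q * t0) * s0 := by rw [← this]
    _ = s1 * (t1 * s0) + s0 * (g * s0 * g) * q * (t0 * s0) := by noncomm_ring
    _ = s0 * (g * s0 * g) * q := by rw [h.ts10, h.ts00]; noncomm_ring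

theorem Model.t0_q (h : Model s0 s1 t0 t1 g u v q d) : t0 * q = (g * s0 * g) * q * t0 := by
  have := h.q1
  calc t0 * q = t0 * (s1 * t1 + s0 * (g * s0 * g) * q * t0) := by rw [← this]
    _ = (t0 * s1) * t1 + (t0 * s0) * (g * s0 * g) * q * t0 := by noncomm_ring
    _ = (g * s0 * g) * q * t0 := by rw [h.ts01, h.ts00]; noncomm_ring

theorem Model.q_s1 (h : Model s0 s1 t0 t1 g u v q d) : q * s1 = s1 := by
  have := h.q1
  calc q * s1 = (s1 * t1 + s0 * (g * s0 * g) * q * t0) * s1 := by rw [← this]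
    _ = s1 * (t1 * s1) + s0 * (g * s0 * g) * q * (t0 * s1) := by noncomm_ring
    _ = s1 := by rw [h.ts11, h.ts01]; noncomm_ring

theorem Model.t1_q (h : Model s0 s1 t0 t1 g u v q d) : t1 * q = t1 := by
  have := h.q1
  calc t1 * q = t1 * (s1 * t1 + s0 * (g * s0 * g) * q * t0) := by rw [← this]
    _ = (t1 * s1) * t1 + (t1 * s0) * (g * s0 * g) * q * t0 := by noncomm_ring
    _ = t1 := by rw [h.ts11, h.ts10]; noncomm_ring

/-- `d` commutes with `s1 t1` -/
theorem Model.d_e (h : Model s0 s1 t0 t1 g u v q d) : d * (s1 * t1) = (s1 * t1) * d := by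
  have h1 := h.q2
  have h2 := h.bt1.h5
  have h3 := h.bs1.h5
  have h4 := h.dq
  calc d * (s1 * t1) = (d * (t1 * g)) * q * (g * s1) := by rw [← h1]; noncomm_ring
    _ = (t1 * g) * (d * q) * (g * s1) := by rw [h2]; noncomm_ring
    _ = (t1 * g) * q * (d * (g * s1)) := by rw [h4]; noncomm_ring
    _ = (t1 * g) * q * ((g * s1) * d) := by rw [h3]
    _ = (t1 * g * q * g * s1) * d := by noncomm_ring
    _ = (s1 * t1) * d := by rw [h1]

/-- `d` commutes with `s0 t0` -/
theorem Model.d_e' (h : Model s0 s1 t0 t1 g u v q d) : d * (s0 * t0) = (s0 * t0) * d := by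
  have h1 : s0 * t0 = 1 - s1 * t1 := by rw [← h.sum]; noncomm_ring
  rw [h1, mul_sub, sub_mul, h.d_e]
  simp

/-- the homomorphisms to the ring itself that lower `d` -/
theorem Model.pi (h : Model s0 s1 t0 t1 g u v q d) {e : A} (he : ∀ a : A, e * a = a * e)
    (hee : e * e = e) : Model s0 s1 t0 t1 g u v q (s0 * d * t0 + e * (s1 * t1)) := by
  apply h.change
  · calc (s0 * d * t0 + e * (s1 * t1)) * (s0 * d * t0 + e * (s1 * t1))
        = s0 * d * (t0 * s0) * d * t0 + s0 * d * (t0 * (e * s1)) * t1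
          + e * (s1 * (t1 * s0)) * d * t0 + e * (s1 * ((t1 * e) * (s1 * t1))) := by noncomm_ring
      _ = s0 * d * 1 * d * t0 + s0 * d * ((t0 * s1) * e) * t1
          + e * (s1 * 0) * d * t0 + e * (s1 * ((e * t1) * (s1 * t1))) := by
            rw [h.ts00, h.ts10, he s1, ← he t1]; noncomm_ring
      _ = s0 * (d * d) * t0 + e * ((s1 * e) * ((t1 * s1) * t1)) := by
            rw [h.ts01]; noncomm_ring
      _ = s0 * d * t0 + e * e * (s1 * t1) := by
            rw [h.dd, h.ts11, ← he s1]; noncomm_ring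
      _ = _ := by rw [hee]
  · calc (s0 * d * t0 + e * (s1 * t1)) * q
        = s0 * d * (t0 * q) + e * (s1 * (t1 * q)) := by noncomm_ring
      _ = s0 * (d * (g * s0 * g)) * q * t0 + e * (s1 * t1) := by
          rw [h.t0_q, h.t1_q]; noncomm_ring
      _ = s0 * (g * s0 * g) * (d * q) * t0 + e * (s1 * t1) := by
          rw [h.bs0.h5]; noncomm_ring
      _ = (s0 * (g * s0 * g) * q) * d * t0 + e * (s1 * t1) := by
          rw [h.dq]; noncomm_ring
      _ = q * s0 * d * t0 + e * (q * s1 * t1) := by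
          rw [← h.q_s0, h.q_s1]
      _ = q * s0 * d * t0 + (e * q) * s1 * t1 := by noncomm_ring
      _ = q * (s0 * d * t0 + e * (s1 * t1)) := by rw [he q]; noncomm_ring
  · intro x b hb
    calc (s0 * d * t0 + e * (s1 * t1)) * b
        = s0 * d * (t0 * b) + e * (s1 * (t1 * b)) := by noncomm_ring
      _ = s0 * (d * b) * t0 + e * ((s1 * x) * t1) := by
          rw [← hb.h4, hb.h2]; noncomm_ring
      _ = (s0 * b) * d * t0 + e * ((b * s1) * t1) := by
          rw [hb.h5, ← hb.h1]; noncomm_ring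
      _ = b * s0 * d * t0 + (e * b) * s1 * t1 := by rw [← hb.h3]; noncomm_ring
      _ = b * (s0 * d * t0 + e * (s1 * t1)) := by rw [he b]; noncomm_ring
  · have key : Beta s0 s1 t0 t1 d (s0 * d * t0 + e * (s1 * t1))
        ((g * s0 * g) * (g * d * g) * (g * t0 * g) + e * ((g * s1) * (t1 * g))) :=
      ((h.bs0.mul h.bd).mul h.bt0).add ((Beta.central he).mul (h.bs1.mul h.bt1))
    have h2 : (g * s0 * g) * (g * d * g) * (g * t0 * g) + e * ((g * s1) * (t1 * g)) =
        g * (s0 * d * t0 + e * (s1 * t1)) * g := by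
      calc (g * s0 * g) * (g * d * g) * (g * t0 * g) + e * ((g * s1) * (t1 * g))
          = g * s0 * (g * g) * d * (g * g) * t0 * g + (e * g) * (s1 * (t1 * g)) := by
            noncomm_ring
        _ = _ := by rw [h.gg, he g]; noncomm_ring
    rw [h2] at key
    exact key

/-- the endomorphism that raises `d` -/
theorem Model.phi (h : Model s0 s1 t0 t1 g u v q d) :
    Model s0 s1 t0 t1 g u v q (t0 * d * s0) := by
  have hts : (g * t0 * g) * (g * s0 * g) = 1 := by
    calc (g * t0 * g) * (g * s0 * g) = g * t0 * (g * g) * s0 * g := by noncomm_ring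
      _ = g * (t0 * s0) * g := by rw [h.gg]; noncomm_ring
      _ = g * g := by rw [h.ts00]; noncomm_ring
      _ = 1 := h.gg
  have hqt : q * t0 = (g * t0 * g) * (t0 * q) := by
    calc q * t0 = ((g * t0 * g) * (g * s0 * g)) * q * t0 := by rw [hts]; noncomm_ring
      _ = (g * t0 * g) * ((g * s0 * g) * q * t0) := by noncomm_ring
      _ = _ := by rw [← h.t0_q]
  have hsq : s0 * q = (g * t0 * g) * (q * s0) := by
    calc s0 * q = s0 * ((g * t0 * g) * (g * s0 * g)) * q := by rw [hts]; noncomm_ring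
      _ = (s0 * (g * t0 * g)) * (g * s0 * g) * q := by noncomm_ring
      _ = ((g * t0 * g) * s0) * (g * s0 * g) * q := by rw [h.bt0.h3]
      _ = (g * t0 * g) * (s0 * (g * s0 * g) * q) := by noncomm_ring
      _ = _ := by rw [← h.q_s0]
  apply h.change
  · calc t0 * d * s0 * (t0 * d * s0) = t0 * (d * (s0 * t0)) * d * s0 := by noncomm_ring
      _ = (t0 * s0) * t0 * (d * d) * s0 := by rw [h.d_e']; noncomm_ring
      _ = _ := by rw [h.ts00, h.dd]; noncomm_ring
  · calc t0 * d * s0 * q = t0 * d * (s0 * q) := by noncomm_ring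
      _ = t0 * (d * (g * t0 * g)) * (q * s0) := by rw [hsq]; noncomm_ring
      _ = (t0 * (g * t0 * g)) * (d * q) * s0 := by rw [h.bt0.h5]; noncomm_ring
      _ = ((g * t0 * g) * (t0 * q)) * d * s0 := by rw [← h.bt0.h4, h.dq]; noncomm_ring
      _ = q * (t0 * d * s0) := by rw [← hqt]; noncomm_ring
  · intro x b hb
    calc t0 * d * s0 * b = t0 * d * (s0 * b) := by noncomm_ring
      _ = t0 * (d * b) * s0 := by rw [← hb.h3]; noncomm_ring
      _ = (t0 * b) * d * s0 := by rw [hb.h5]; noncomm_ring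
      _ = _ := by rw [← hb.h4]; noncomm_ring
  · have key : Beta s0 s1 t0 t1 d (t0 * d * s0)
        ((g * t0 * g) * (g * d * g) * (g * s0 * g)) := (h.bt0.mul h.bd).mul h.bs0
    have h2 : (g * t0 * g) * (g * d * g) * (g * s0 * g) = g * (t0 * d * s0) * g := by
      calc (g * t0 * g) * (g * d * g) * (g * s0 * g)
          = g * t0 * (g * g) * d * (g * g) * s0 * g := by noncomm_ring
        _ = _ := by rw [h.gg]; noncomm_ring
    rw [h2] at key
    exact key

/-- decomposition of `d` -/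
theorem Model.d_eq (h : Model s0 s1 t0 t1 g u v q d) :
    d = s1 * (t1 * d * s1) * t1 + s0 * (t0 * d * s0) * t0 := by
  have e1 : (s1 * t1) * (s1 * t1) = s1 * t1 := by
    calc (s1 * t1) * (s1 * t1) = s1 * (t1 * s1) * t1 := by noncomm_ring
      _ = _ := by rw [h.ts11]; noncomm_ring
  have e2 : (s0 * t0) * (s0 * t0) = s0 * t0 := by
    calc (s0 * t0) * (s0 * t0) = s0 * (t0 * s0) * t0 := by noncomm_ring
      _ = _ := by rw [h.ts00]; noncomm_ring
  calc d = (s0 * t0 + s1 * t1) * d := by rw [h.sum, one_mul]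
    _ = (s0 * t0) * (s0 * t0) * d + (s1 * t1) * (s1 * t1) * d := by rw [e1, e2, add_mul]
    _ = (s0 * t0) * ((s0 * t0) * d) + (s1 * t1) * ((s1 * t1) * d) := by noncomm_ring
    _ = (s0 * t0) * (d * (s0 * t0)) + (s1 * t1) * (d * (s1 * t1)) := by rw [h.d_e, h.d_e']
    _ = _ := by noncomm_ring

/-- the central idempotent commutes with everything that has a shifted copy -/
theorem Model.c_comm (_h : Model s0 s1 t0 t1 g u v q d) {x b : A}
    (hb : Beta s0 s1 t0 t1 d x b) : (t1 * d * s1) * x = x * (t1 * d * s1) := by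
  calc (t1 * d * s1) * x = t1 * d * (s1 * x) := by noncomm_ring
    _ = t1 * (d * b) * s1 := by rw [← hb.h1]; noncomm_ring
    _ = (t1 * b) * d * s1 := by rw [hb.h5]; noncomm_ring
    _ = _ := by rw [hb.h2]; noncomm_ring

theorem Model.c_idem (h : Model s0 s1 t0 t1 g u v q d) :
    (t1 * d * s1) * (t1 * d * s1) = t1 * d * s1 := by
  calc (t1 * d * s1) * (t1 * d * s1) = t1 * (d * (s1 * t1)) * d * s1 := by noncomm_ring
    _ = (t1 * s1) * t1 * (d * d) * s1 := by rw [h.d_e]; noncomm_ring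
    _ = _ := by rw [h.ts11, h.dd]; noncomm_ring

end models

/-- the five elements expressing `Beta` -/
def betaRel {A : Type} [Ring A] (s0 s1 t0 t1 d x b : A) : List A :=
  [b * s1 - s1 * x, t1 * b - x * t1, b * s0 - s0 * b, b * t0 - t0 * b, d * b - b * d]

/-- the list of elements expressing `Model` -/
def relList {A : Type} [Ring A] (s0 s1 t0 t1 g u v q d : A) : List A :=
  [t0 * s0 - 1, t1 * s1 - 1, t0 * s1, t1 * s0, s0 * t0 + s1 * t1 - 1, g * g - 1, u * v - 1,
    v * u - 1, q - (s1 * t1 + s0 * (g * s0 * g) * q * t0), t1 * g * q * g * s1 - s1 * t1,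
    d * d - d, d * q - q * d] ++
  (betaRel s0 s1 t0 t1 d s0 (g * s0 * g) ++ (betaRel s0 s1 t0 t1 d s1 (g * s1) ++
  (betaRel s0 s1 t0 t1 d t0 (g * t0 * g) ++ (betaRel s0 s1 t0 t1 d t1 (t1 * g) ++
  (betaRel s0 s1 t0 t1 d g (u * g * v) ++ (betaRel s0 s1 t0 t1 d u (g * u) ++
  (betaRel s0 s1 t0 t1 d v (v * g) ++ (betaRel s0 s1 t0 t1 d q (u * q * v) ++
  betaRel s0 s1 t0 t1 d d (g * d * g)))))))))

theorem betaRel_iff {A : Type} [Ring A] (s0 s1 t0 t1 d x b : A) :
    (∀ t ∈ betaRel s0 s1 t0 t1 d x b, t = 0) ↔ Beta s0 s1 t0 t1 d x b := by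
  simp only [betaRel, List.mem_cons, List.not_mem_nil, or_false, forall_eq_or_imp, forall_eq,
    sub_eq_zero]
  constructor
  · rintro ⟨h1, h2, h3, h4, h5⟩
    exact ⟨h1, h2, h3, h4, h5⟩
  · rintro ⟨h1, h2, h3, h4, h5⟩
    exact ⟨h1, h2, h3, h4, h5⟩

theorem relList_iff {A : Type} [Ring A] (s0 s1 t0 t1 g u v q d : A) :
    (∀ t ∈ relList s0 s1 t0 t1 g u v q d, t = 0) ↔ Model s0 s1 t0 t1 g u v q d := by
  simp only [relList, List.forall_mem_append, betaRel_iff, List.mem_cons, List.not_mem_nil,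
    or_false, forall_eq_or_imp, forall_eq, sub_eq_zero]
  constructor
  · rintro ⟨⟨a1, a2, a3, a4, a5, a6, a7, a8, a9, a10, a11, a12⟩, b1, b2, b3, b4, b5, b6, b7,
      b8, b9⟩
    exact ⟨a1, a2, a3, a4, a5, a6, a7, a8, a9, a10, a11, a12, b1, b2, b3, b4, b5, b6, b7,
      b8, b9⟩
  · rintro ⟨a1, a2, a3, a4, a5, a6, a7, a8, a9, a10, a11, a12, b1, b2, b3, b4, b5, b6, b7,
      b8, b9⟩
    exact ⟨⟨a1, a2, a3, a4, a5, a6, a7, a8, a9, a10, a11, a12⟩, b1, b2, b3, b4, b5, b6, b7,
      b8, b9⟩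

theorem betaRel_map {A B : Type} [Ring A] [Ring B] (p : A →+* B) (s0 s1 t0 t1 d x b : A) :
    (betaRel s0 s1 t0 t1 d x b).map p =
      betaRel (p s0) (p s1) (p t0) (p t1) (p d) (p x) (p b) := by
  simp [betaRel]

theorem relList_map {A B : Type} [Ring A] [Ring B] (p : A →+* B) (s0 s1 t0 t1 g u v q d : A) :
    (relList s0 s1 t0 t1 g u v q d).map p =
      relList (p s0) (p s1) (p t0) (p t1) (p g) (p u) (p v) (p q) (p d) := by
  simp only [relList, List.map_append, betaRel_map, List.map_cons, List.map_nil, map_mul,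
    map_sub, map_add, map_one]

/-- the free ring on nine letters -/
abbrev FR := FreeRing (Fin 9)

/-- the finite set of relators in the free ring -/
def relSet : Set FR :=
  {t | t ∈ relList (FreeRing.of (0 : Fin 9)) (FreeRing.of 1) (FreeRing.of 2) (FreeRing.of 3)
    (FreeRing.of 4) (FreeRing.of 5) (FreeRing.of 6) (FreeRing.of 7) (FreeRing.of 8)}

theorem relSet_finite : relSet.Finite := List.finite_toSet _

/-- the finitely presented ring -/
def RR : Type := (TwoSidedIdeal.span relSet).ringCon.Quotient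

noncomputable instance : Ring RR :=
  inferInstanceAs (Ring (TwoSidedIdeal.span relSet).ringCon.Quotient)

/-- the projection -/
noncomputable def mk : FR →+* RR := RingCon.mk' (TwoSidedIdeal.span relSet).ringCon

theorem mk_surjective : Function.Surjective mk := RingCon.mk'_surjective _

theorem mk_eq_zero (f : FR) : mk f = 0 ↔ f ∈ TwoSidedIdeal.span relSet := by
  rw [TwoSidedIdeal.mem_iff, ← map_zero mk]
  exact RingCon.eq _

/-- the images of the letters -/
noncomputable def lt (i : Fin 9) : RR := mk (FreeRing.of i)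

theorem lt_model : Model (lt 0) (lt 1) (lt 2) (lt 3) (lt 4) (lt 5) (lt 6) (lt 7) (lt 8) := by
  rw [← relList_iff]
  intro t ht
  have h := relList_map mk (FreeRing.of (0 : Fin 9)) (FreeRing.of 1) (FreeRing.of 2)
    (FreeRing.of 3) (FreeRing.of 4) (FreeRing.of 5) (FreeRing.of 6) (FreeRing.of 7)
    (FreeRing.of 8)
  unfold lt at ht
  rw [← h, List.mem_map] at ht
  obtain ⟨f, hf, rfl⟩ := ht
  rw [mk_eq_zero]
  exact TwoSidedIdeal.subset_span hf

theorem exists_hom {A : Type} [Ring A] {s0 s1 t0 t1 g u v q d : A}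
    (h : Model s0 s1 t0 t1 g u v q d) : ∃ p : RR →+* A, p (lt 0) = s0 ∧ p (lt 1) = s1 ∧
      p (lt 2) = t0 ∧ p (lt 3) = t1 ∧ p (lt 4) = g ∧ p (lt 5) = u ∧ p (lt 6) = v ∧
      p (lt 7) = q ∧ p (lt 8) = d := by
  let c : Fin 9 → A := ![s0, s1, t0, t1, g, u, v, q, d]
  let P : FR →+* A := FreeRing.lift c
  have hP : ∀ i, P (FreeRing.of i) = c i := fun i => FreeRing.lift_of _ _
  have hle : (TwoSidedIdeal.span relSet).ringCon ≤ RingCon.ker P := by
    have h1 : TwoSidedIdeal.span relSet ≤ TwoSidedIdeal.ker P := by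
      rw [TwoSidedIdeal.span_le]
      intro t ht
      have h2 : P t ∈ (relList (FreeRing.of (0 : Fin 9)) (FreeRing.of 1) (FreeRing.of 2)
        (FreeRing.of 3) (FreeRing.of 4) (FreeRing.of 5) (FreeRing.of 6) (FreeRing.of 7)
        (FreeRing.of 8)).map P := List.mem_map_of_mem ht
      rw [relList_map] at h2
      simp only [hP] at h2
      exact (relList_iff _ _ _ _ _ _ _ _ _).2 h _ h2
    intro x y hxy
    have h2 : x - y ∈ TwoSidedIdeal.ker P := h1 ((TwoSidedIdeal.rel_iff _ _ _).1 hxy)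
    rw [TwoSidedIdeal.mem_ker, map_sub, sub_eq_zero] at h2
    exact h2
  refine ⟨RingCon.lift _ P hle, ?_⟩
  have hL : ∀ i, RingCon.lift _ P hle (lt i) = c i := by
    intro i
    rw [← hP]
    rfl
  exact ⟨hL 0, hL 1, hL 2, hL 3, hL 4, hL 5, hL 6, hL 7, hL 8⟩

/-- induction principle for the ring -/
theorem RR_induction {C : RR → Prop} (hlt : ∀ i, C (lt i)) (h1 : C 1)
    (hneg : ∀ a, C a → C (-a)) (hadd : ∀ a b, C a → C b → C (a + b))
    (hmul : ∀ a b, C a → C b → C (a * b)) (a : RR) : C a := by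
  obtain ⟨f, rfl⟩ := mk_surjective a
  refine FreeRing.induction_on f ?_ ?_ ?_ ?_
  · rw [map_neg, map_one]; exact hneg _ h1
  · exact hlt
  · intro x y hx hy; rw [map_add]; exact hadd _ _ hx hy
  · intro x y hx hy; rw [map_mul]; exact hmul _ _ hx hy

theorem c_central : ∀ a : RR, (lt 3 * lt 8 * lt 1) * a = a * (lt 3 * lt 8 * lt 1) := by
  have h := lt_model
  intro a
  refine RR_induction (C := fun a => (lt 3 * lt 8 * lt 1) * a = a * (lt 3 * lt 8 * lt 1))
    ?_ ?_ ?_ ?_ ?_ a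
  · intro i
    fin_cases i
    · exact h.c_comm h.bs0
    · exact h.c_comm h.bs1
    · exact h.c_comm h.bt0
    · exact h.c_comm h.bt1
    · exact h.c_comm h.bg
    · exact h.c_comm h.bu
    · exact h.c_comm h.bv
    · exact h.c_comm h.bq
    · exact h.c_comm h.bd
  · rw [mul_one, one_mul]
  · intro a ha
    rw [mul_neg, neg_mul, ha]
  · intro a b ha hb
    rw [mul_add, add_mul, ha, hb]
  · intro a b ha hb
    rw [← mul_assoc, ha, mul_assoc, hb, ← mul_assoc]

theorem RR_equiv : Nonempty (RR ≃+* RR × RR) := by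
  have h := lt_model
  obtain ⟨p0, a0, a1, a2, a3, a4, a5, a6, a7, a8⟩ :=
    exists_hom (h.pi (e := 0) (by simp) (by simp))
  obtain ⟨p1, b0, b1, b2, b3, b4, b5, b6, b7, b8⟩ :=
    exists_hom (h.pi (e := 1) (by simp) (by simp))
  obtain ⟨f, c0, c1, c2, c3, c4, c5, c6, c7, c8⟩ := exists_hom h.phi
  set c : RR := lt 3 * lt 8 * lt 1 with hc
  have hcc : c * c = c := h.c_idem
  have hcent : ∀ a : RR, c * a = a * c := c_central
  have hp0c : p0 c = 0 := by
    rw [hc, map_mul, map_mul, a3, a8, a1]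
    calc lt 3 * (lt 0 * lt 8 * lt 2 + 0 * (lt 1 * lt 3)) * lt 1
        = (lt 3 * lt 0) * lt 8 * lt 2 * lt 1 := by noncomm_ring
      _ = 0 := by rw [h.ts10]; noncomm_ring
  have hp1c : p1 c = 1 := by
    rw [hc, map_mul, map_mul, b3, b8, b1]
    calc lt 3 * (lt 0 * lt 8 * lt 2 + 1 * (lt 1 * lt 3)) * lt 1
        = (lt 3 * lt 0) * lt 8 * lt 2 * lt 1 + (lt 3 * lt 1) * (lt 3 * lt 1) := by noncomm_ring
      _ = 1 := by rw [h.ts10, h.ts11]; noncomm_ring
  have hp0f : ∀ a, p0 (f a) = a := by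
    intro a
    refine RR_induction (C := fun a => p0 (f a) = a) ?_ ?_ ?_ ?_ ?_ a
    · intro i
      fin_cases i
      · change p0 (f (lt 0)) = lt 0; rw [c0, a0]
      · change p0 (f (lt 1)) = lt 1; rw [c1, a1]
      · change p0 (f (lt 2)) = lt 2; rw [c2, a2]
      · change p0 (f (lt 3)) = lt 3; rw [c3, a3]
      · change p0 (f (lt 4)) = lt 4; rw [c4, a4]
      · change p0 (f (lt 5)) = lt 5; rw [c5, a5]
      · change p0 (f (lt 6)) = lt 6; rw [c6, a6]
      · change p0 (f (lt 7)) = lt 7; rw [c7, a7]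
      · change p0 (f (lt 8)) = lt 8
        rw [c8, map_mul, map_mul, a2, a8, a0]
        calc lt 2 * (lt 0 * lt 8 * lt 2 + 0 * (lt 1 * lt 3)) * lt 0
            = (lt 2 * lt 0) * lt 8 * (lt 2 * lt 0) := by noncomm_ring
          _ = lt 8 := by rw [h.ts00]; noncomm_ring
    · rw [map_one, map_one]
    · intro a ha; rw [map_neg, map_neg, ha]
    · intro a b ha hb; rw [map_add, map_add, ha, hb]
    · intro a b ha hb; rw [map_mul, map_mul, ha, hb]
  have hp1f : ∀ a, p1 (f a) = a := by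
    intro a
    refine RR_induction (C := fun a => p1 (f a) = a) ?_ ?_ ?_ ?_ ?_ a
    · intro i
      fin_cases i
      · change p1 (f (lt 0)) = lt 0; rw [c0, b0]
      · change p1 (f (lt 1)) = lt 1; rw [c1, b1]
      · change p1 (f (lt 2)) = lt 2; rw [c2, b2]
      · change p1 (f (lt 3)) = lt 3; rw [c3, b3]
      · change p1 (f (lt 4)) = lt 4; rw [c4, b4]
      · change p1 (f (lt 5)) = lt 5; rw [c5, b5]
      · change p1 (f (lt 6)) = lt 6; rw [c6, b6]
      · change p1 (f (lt 7)) = lt 7; rw [c7, b7]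
      · change p1 (f (lt 8)) = lt 8
        rw [c8, map_mul, map_mul, b2, b8, b0]
        calc lt 2 * (lt 0 * lt 8 * lt 2 + 1 * (lt 1 * lt 3)) * lt 0
            = (lt 2 * lt 0) * lt 8 * (lt 2 * lt 0) + (lt 2 * lt 1) * (lt 3 * lt 0) := by
              noncomm_ring
          _ = lt 8 := by rw [h.ts00, h.ts01]; noncomm_ring
    · rw [map_one, map_one]
    · intro a ha; rw [map_neg, map_neg, ha]
    · intro a b ha hb; rw [map_add, map_add, ha, hb]
    · intro a b ha hb; rw [map_mul, map_mul, ha, hb]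
  have hrec0 : ∀ a, (1 - c) * f (p0 a) = (1 - c) * a := by
    intro a
    refine RR_induction (C := fun a => (1 - c) * f (p0 a) = (1 - c) * a) ?_ ?_ ?_ ?_ ?_ a
    · intro i
      fin_cases i
      · change (1 - c) * f (p0 (lt 0)) = (1 - c) * lt 0; rw [a0, c0]
      · change (1 - c) * f (p0 (lt 1)) = (1 - c) * lt 1; rw [a1, c1]
      · change (1 - c) * f (p0 (lt 2)) = (1 - c) * lt 2; rw [a2, c2]
      · change (1 - c) * f (p0 (lt 3)) = (1 - c) * lt 3; rw [a3, c3]
      · change (1 - c) * f (p0 (lt 4)) = (1 - c) * lt 4; rw [a4, c4]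
      · change (1 - c) * f (p0 (lt 5)) = (1 - c) * lt 5; rw [a5, c5]
      · change (1 - c) * f (p0 (lt 6)) = (1 - c) * lt 6; rw [a6, c6]
      · change (1 - c) * f (p0 (lt 7)) = (1 - c) * lt 7; rw [a7, c7]
      · change (1 - c) * f (p0 (lt 8)) = (1 - c) * lt 8
        rw [a8, zero_mul, add_zero, map_mul, map_mul, c0, c8, c2]
        have hd := h.d_eq
        rw [← hc] at hd
        symm
        calc (1 - c) * lt 8
            = (1 - c) * (lt 1 * c * lt 3 + lt 0 * (lt 2 * lt 8 * lt 0) * lt 2) := by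
              rw [← hd]
          _ = (1 - c) * ((c * lt 1) * lt 3 + lt 0 * (lt 2 * lt 8 * lt 0) * lt 2) := by
              rw [← hcent]
          _ = c * lt 1 * lt 3 - c * c * lt 1 * lt 3 +
                (1 - c) * (lt 0 * (lt 2 * lt 8 * lt 0) * lt 2) := by noncomm_ring
          _ = _ := by rw [hcc, sub_self, zero_add]
    · rw [map_one, map_one]
    · intro a ha; rw [map_neg, map_neg, mul_neg, ha, mul_neg]
    · intro a b ha hb; rw [map_add, map_add, mul_add, ha, hb, mul_add]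
    · intro a b ha hb
      have hcent' : ∀ a : RR, (1 - c) * a = a * (1 - c) := by
        intro a; rw [sub_mul, mul_sub, hcent, one_mul, mul_one]
      rw [map_mul, map_mul]
      have hid : (1 - c) * (1 - c) = 1 - c := by
        calc (1 - c) * (1 - c) = 1 - c - c + c * c := by noncomm_ring
          _ = 1 - c := by rw [hcc]; noncomm_ring
      calc (1 - c) * (f (p0 a) * f (p0 b))
          = ((1 - c) * f (p0 a)) * f (p0 b) := by rw [mul_assoc]
        _ = a * ((1 - c) * f (p0 b)) := by rw [ha, hcent' a, mul_assoc]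
        _ = (1 - c) * (a * b) := by rw [hb, ← mul_assoc, ← hcent', mul_assoc]
  have hrec1 : ∀ a, c * f (p1 a) = c * a := by
    intro a
    refine RR_induction (C := fun a => c * f (p1 a) = c * a) ?_ ?_ ?_ ?_ ?_ a
    · intro i
      fin_cases i
      · change c * f (p1 (lt 0)) = c * lt 0; rw [b0, c0]
      · change c * f (p1 (lt 1)) = c * lt 1; rw [b1, c1]
      · change c * f (p1 (lt 2)) = c * lt 2; rw [b2, c2]
      · change c * f (p1 (lt 3)) = c * lt 3; rw [b3, c3]
      · change c * f (p1 (lt 4)) = c * lt 4; rw [b4, c4]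
      · change c * f (p1 (lt 5)) = c * lt 5; rw [b5, c5]
      · change c * f (p1 (lt 6)) = c * lt 6; rw [b6, c6]
      · change c * f (p1 (lt 7)) = c * lt 7; rw [b7, c7]
      · change c * f (p1 (lt 8)) = c * lt 8
        rw [b8, one_mul, map_add, map_mul, map_mul, map_mul, c0, c8, c2, c1, c3]
        have hd := h.d_eq
        rw [← hc] at hd
        symm
        calc c * lt 8
            = c * (lt 1 * c * lt 3 + lt 0 * (lt 2 * lt 8 * lt 0) * lt 2) := by
              rw [← hd]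
          _ = c * ((c * lt 1) * lt 3 + lt 0 * (lt 2 * lt 8 * lt 0) * lt 2) := by
              rw [← hcent]
          _ = c * c * lt 1 * lt 3 + c * (lt 0 * (lt 2 * lt 8 * lt 0) * lt 2) := by noncomm_ring
          _ = _ := by rw [hcc]; noncomm_ring
    · rw [map_one, map_one]
    · intro a ha; rw [map_neg, map_neg, mul_neg, ha, mul_neg]
    · intro a b ha hb; rw [map_add, map_add, mul_add, ha, hb, mul_add]
    · intro a b ha hb
      rw [map_mul, map_mul]
      calc c * (f (p1 a) * f (p1 b))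
          = (c * f (p1 a)) * f (p1 b) := (mul_assoc _ _ _).symm
        _ = a * (c * f (p1 b)) := by rw [ha, hcent a, mul_assoc]
        _ = c * (a * b) := by rw [hb, ← mul_assoc, ← hcent, mul_assoc]
  refine ⟨RingEquiv.ofBijective (p0.prod p1) ⟨?_, ?_⟩⟩
  · rw [injective_iff_map_eq_zero]
    intro a ha
    have h0 : p0 a = 0 := congrArg Prod.fst ha
    have h1 : p1 a = 0 := congrArg Prod.snd ha
    have e0 := hrec0 a
    have e1 := hrec1 a
    rw [h0, map_zero, mul_zero] at e0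
    rw [h1, map_zero, mul_zero] at e1
    calc a = (1 - c) * a + c * a := by noncomm_ring
      _ = 0 := by rw [← e0, ← e1, add_zero]
  · rintro ⟨x, y⟩
    refine ⟨(1 - c) * f x + c * f y, ?_⟩
    apply Prod.ext
    · change p0 ((1 - c) * f x + c * f y) = x
      rw [map_add, map_mul, map_mul, map_sub, map_one, hp0c, hp0f]
      noncomm_ring
    · change p1 ((1 - c) * f x + c * f y) = y
      rw [map_add, map_mul, map_mul, map_sub, map_one, hp1c, hp1f, hp1f]
      noncomm_ring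

end Pool.Agent.H665S
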